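import Mathlib

set_option autoImplicit false

namespace Pool.Agent.helper52.Arith

lemma mul_lt_a {G : Type*} [LinearOrderedCommGroupWithZero G] {a b : G} (ha : a ≤ 1)
    (hb : b < 1) : a * b < 1 :=
  Right.mul_lt_one_of_le_of_lt ha hb

lemma mul_lt_b {G : Type*} [LinearOrderedCommGroupWithZero G] {a b : G} (ha : a < 1)
    (hb : b ≤ 1) : a * b < 1 := by
  rw [mul_comm]; exact mul_lt_a hb ha

/-- there is a valuation on `K` with `v 3 < 1` -/
lemma exists_valuationSubring (K : Type*) [Field K] [CharZero K] :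
    ∃ V : ValuationSubring K, V.valuation (3 : K) < 1 := by
  let A : Subring K := (Int.castRingHom K).range
  have h3 : (3 : K) ∈ A := ⟨3, by simp⟩
  let I : Ideal A := Ideal.span {(⟨3, h3⟩ : A)}
  have hI : I ≠ ⊤ := by
    intro h
    rw [Ideal.eq_top_iff_one, Ideal.mem_span_singleton] at h
    obtain ⟨⟨_, ⟨n, rfl⟩⟩, hn⟩ := h
    have h2 : (1 : K) = 3 * (n : K) := by
      have := congrArg Subtype.val hn
      simpa using this
    have h3' : (1 : ℤ) = 3 * n := by exact_mod_cast h2
    omega
  obtain ⟨B, hB, hB'⟩ := Ideal.image_subset_nonunits_valuationSubring I hI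
  refine ⟨B, ?_⟩
  have : (3 : K) ∈ B.nonunits := by
    apply hB'
    exact ⟨⟨3, h3⟩, Ideal.mem_span_singleton_self _, rfl⟩
  exact this

variable {K : Type*} [Field K] [CharZero K] (V : ValuationSubring K)

omit [CharZero K] in
lemma val_int_le (m : ℤ) : V.valuation (m : K) ≤ 1 := by
  rw [ValuationSubring.valuation_le_one_iff]
  exact intCast_mem V m

lemma val_int_unit (h3 : V.valuation (3 : K) < 1) (m : ℤ) (hm : ¬ (3 : ℤ) ∣ m) :
    V.valuation (m : K) = 1 := by
  refine le_antisymm (val_int_le V m) ?_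
  by_contra hlt
  push Not at hlt
  have hg : IsCoprime (3 : ℤ) m :=
    (Nat.prime_iff_prime_int.mp (by norm_num : Nat.Prime 3)).coprime_iff_not_dvd.mpr hm
  obtain ⟨a, b, hab⟩ := hg
  have h1 : ((a : K)) * 3 + b * m = 1 := by exact_mod_cast hab
  have h2 : V.valuation ((a : K) * 3 + b * m) < 1 := by
    apply Valuation.map_add_lt
    · rw [map_mul]
      exact mul_lt_a (val_int_le V a) h3
    · rw [map_mul]
      exact mul_lt_a (val_int_le V b) hlt
  rw [h1, map_one] at h2
  exact lt_irrefl _ h2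

lemma val_int (h3 : V.valuation (3 : K) < 1) (m : ℤ) (hm : m ≠ 0) :
    ∃ n : ℕ, V.valuation (m : K) = V.valuation (3 : K) ^ n := by
  obtain ⟨c, hmc, hc⟩ := (Int.finiteMultiplicity_iff.mpr
    ⟨(by norm_num : (3 : ℤ).natAbs ≠ 1), hm⟩).exists_eq_pow_mul_and_not_dvd
  refine ⟨multiplicity (3 : ℤ) m, ?_⟩
  generalize multiplicity (3 : ℤ) m = n at hmc
  rw [hmc]
  push_cast
  rw [map_mul, map_pow, val_int_unit V h3 c hc, mul_one]

lemma val_rat (h3 : V.valuation (3 : K) < 1) (q : ℚ) (hq : q ≠ 0) :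
    ∃ n : ℤ, V.valuation (q : K) = V.valuation (3 : K) ^ n := by
  obtain ⟨a, ha⟩ := val_int V h3 q.num (Rat.num_ne_zero.mpr hq)
  obtain ⟨b, hb⟩ := val_int V h3 (q.den : ℤ) (by exact_mod_cast q.den_nz)
  refine ⟨(a : ℤ) - b, ?_⟩
  have hne : V.valuation (3 : K) ≠ 0 := by
    rw [Valuation.ne_zero_iff]; norm_num
  have : (q : K) = (q.num : K) / ((q.den : ℤ) : K) := by
    rw [Rat.cast_def]; simp
  rw [this, map_div₀, ha, hb, zpow_sub₀ hne, zpow_natCast, zpow_natCast]

/-- the residue field. -/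
lemma rat_cube (h3 : V.valuation (3 : K) < 1) (q : ℚ) (hq : V.valuation (q : K) ≤ 1) :
    V.valuation ((q : K) ^ 3 - q) < 1 := by
  -- the denominator is prime to 3
  have hden : ¬ (3 : ℤ) ∣ (q.den : ℤ) := by
    intro hd
    have hnum : ¬ (3 : ℤ) ∣ q.num := by
      intro hn
      have h1 : (3 : ℕ) ∣ q.num.natAbs := Int.natCast_dvd.mp (by exact_mod_cast hn)
      have h2 : (3 : ℕ) ∣ q.den := by exact_mod_cast hd
      have := Nat.dvd_gcd h1 h2
      rw [q.reduced] at this
      norm_num at this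
    have e : (q : K) * ((q.den : ℤ) : K) = (q.num : K) := by
      have : q * q.den = q.num := Rat.mul_den_eq_num q
      exact_mod_cast this
    have e2 := congrArg V.valuation e
    rw [map_mul, val_int_unit V h3 q.num hnum] at e2
    obtain ⟨c, hc⟩ := hd
    have h4 : V.valuation ((q.den : ℤ) : K) < 1 := by
      rw [hc]; push_cast; rw [map_mul]
      exact mul_lt_b h3 (val_int_le V c)
    have := mul_lt_a hq h4
    rw [e2] at this
    exact lt_irrefl _ this
  have hdv : V.valuation ((q.den : ℤ) : K) = 1 := val_int_unit V h3 _ hden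
  have hdvd : (3 : ℤ) ∣ q.num ^ 3 - q.num * (q.den : ℤ) ^ 2 := by
    generalize (q.den : ℤ) = d at hden
    generalize q.num = m
    have h1 : d % 3 = 1 ∨ d % 3 = 2 := by omega
    have h2 : m % 3 = 0 ∨ m % 3 = 1 ∨ m % 3 = 2 := by omega
    apply Int.dvd_of_emod_eq_zero
    rcases h1 with h1 | h1 <;> rcases h2 with h2 | h2 | h2 <;>
      simp [Int.sub_emod, Int.mul_emod, pow_succ, h1, h2]
  obtain ⟨c, hc⟩ := hdvd
  have e : ((q : K) ^ 3 - q) * ((q.den : ℤ) : K) ^ 3 = 3 * (c : K) := by
    have h1 : (q : K) * ((q.den : ℤ) : K) = (q.num : K) := by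
      have : q * q.den = q.num := Rat.mul_den_eq_num q
      exact_mod_cast this
    have h2 : (q.num : K) ^ 3 - q.num * ((q.den : ℤ) : K) ^ 2 = 3 * (c : K) := by
      exact_mod_cast hc
    rw [← h2, ← h1]; ring
  have e2 := congrArg V.valuation e
  rw [map_mul, map_pow, hdv, one_pow, mul_one, map_mul] at e2
  rw [e2]
  exact mul_lt_b h3 (val_int_le V c)

lemma dep3 [Algebra ℚ K] (hK : Module.finrank ℚ K = 2) (e : Fin 3 → K) :
    ∃ g : Fin 3 → ℚ, (∀ i, V.valuation ((g i : ℚ) : K) ≤ 1) ∧ (∃ i, g i = 1) ∧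
      ((g 0 : ℚ) : K) * e 0 + ((g 1 : ℚ) : K) * e 1 + ((g 2 : ℚ) : K) * e 2 = 0 := by
  have hfin : Module.Finite ℚ K := Module.finite_of_finrank_pos (by omega)
  have hnot : ¬ LinearIndependent ℚ e := by
    intro h
    have := h.fintype_card_le_finrank
    rw [hK] at this
    simp at this
  rw [Fintype.not_linearIndependent_iff] at hnot
  obtain ⟨g, hg, i, hi⟩ := hnot
  obtain ⟨j, hj⟩ := Finite.exists_max (fun i => V.valuation ((g i : ℚ) : K))
  have hj0 : g j ≠ 0 := by
    intro h0
    have := hj i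
    simp only [h0, Rat.cast_zero, map_zero, le_zero_iff, Valuation.zero_iff, Rat.cast_eq_zero]
      at this
    exact hi this
  have hjK : ((g j : ℚ) : K) ≠ 0 := by exact_mod_cast hj0
  refine ⟨fun i => g i / g j, ?_, ⟨j, div_self hj0⟩, ?_⟩
  · intro i
    have : ((g i / g j : ℚ) : K) = (g i : K) / (g j : K) := by push_cast; rfl
    show V.valuation ((g i / g j : ℚ) : K) ≤ 1
    rw [this, map_div₀]
    exact div_le_one_of_le₀ (hj i) zero_le
  · rw [Fin.sum_univ_three] at hg
    simp only [Algebra.smul_def, eq_ratCast] at hg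
    push_cast
    field_simp
    linear_combination hg

/-- the residue of a rational number in `V` is fixed by the cube map. -/
lemma residue_rat_cube (h3 : V.valuation (3 : K) < 1) (q : ℚ) (hq : (q : K) ∈ V) :
    (IsLocalRing.residue V ⟨(q : K), hq⟩) ^ 3 = IsLocalRing.residue V ⟨(q : K), hq⟩ := by
  rw [← sub_eq_zero, ← map_pow, ← map_sub, IsLocalRing.residue_eq_zero_iff,
    ValuationSubring.valuation_lt_one_iff]
  have := rat_cube V h3 q ((ValuationSubring.valuation_le_one_iff _ _).mpr hq)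
  simpa using this

omit [CharZero K] in
lemma residue_three (h3 : V.valuation (3 : K) < 1) :
    (3 : IsLocalRing.ResidueField V) = 0 := by
  have : (3 : IsLocalRing.ResidueField V) = IsLocalRing.residue V 3 :=
    (map_ofNat (IsLocalRing.residue V) 3).symm
  rw [this, IsLocalRing.residue_eq_zero_iff, ValuationSubring.valuation_lt_one_iff]
  exact h3

/-- Part 1: in a quadratic field the cubic `x^3 - x + 1` has no root modulo a place above `3`. -/
lemma cubic_unit [Algebra ℚ K] (hK : Module.finrank ℚ K = 2) (h3 : V.valuation (3 : K) < 1)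
    (x : K) (hx : V.valuation x ≤ 1) : V.valuation (x ^ 3 - x + 1) = 1 := by
  have hxV : x ∈ V := (ValuationSubring.valuation_le_one_iff _ _).mp hx
  by_contra hne
  have hlt : V.valuation (x ^ 3 - x + 1) < 1 := by
    refine lt_of_le_of_ne ?_ hne
    rw [ValuationSubring.valuation_le_one_iff]
    exact add_mem (sub_mem (pow_mem hxV 3) hxV) (one_mem V)
  obtain ⟨g, hg, ⟨i, hi⟩, hrel⟩ := dep3 V hK ![1, x, x ^ 2]
  simp only [Matrix.cons_val_zero, Matrix.cons_val_one, Matrix.cons_val_two, Matrix.head_cons,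
    Matrix.tail_cons] at hrel
  have hgV : ∀ i, ((g i : ℚ) : K) ∈ V := fun i =>
    (ValuationSubring.valuation_le_one_iff _ _).mp (hg i)
  set r := IsLocalRing.residue V with hr
  set a := r ⟨_, hgV 0⟩ with ha
  set b := r ⟨_, hgV 1⟩ with hb
  set c := r ⟨_, hgV 2⟩ with hc
  set t := r ⟨x, hxV⟩ with ht
  have ha3 : a ^ 3 = a := residue_rat_cube V h3 (g 0) (hgV 0)
  have hb3 : b ^ 3 = b := residue_rat_cube V h3 (g 1) (hgV 1)
  have hc3 : c ^ 3 = c := residue_rat_cube V h3 (g 2) (hgV 2)
  have h30 := residue_three V h3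
  have ht3 : t ^ 3 = t - 1 := by
    have : r (⟨x, hxV⟩ ^ 3 - ⟨x, hxV⟩ + 1) = 0 := by
      rw [hr, IsLocalRing.residue_eq_zero_iff, ValuationSubring.valuation_lt_one_iff]
      simpa using hlt
    rw [map_add, map_sub, map_pow, map_one] at this
    linear_combination this
  have hrel1 : a + b * t + c * t ^ 2 = 0 := by
    have : r (⟨_, hgV 0⟩ + ⟨_, hgV 1⟩ * ⟨x, hxV⟩ + ⟨_, hgV 2⟩ * ⟨x, hxV⟩ ^ 2) = 0 := by
      have h0 : (⟨_, hgV 0⟩ + ⟨_, hgV 1⟩ * ⟨x, hxV⟩ + ⟨_, hgV 2⟩ * ⟨x, hxV⟩ ^ 2 : V) = 0 := by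
        apply Subtype.ext
        simpa using hrel
      rw [h0, map_zero]
    rw [map_add, map_add, map_mul, map_mul, map_pow] at this
    exact this
  -- Frobenius
  have frob : ∀ u w : IsLocalRing.ResidueField V, (u + w) ^ 3 = u ^ 3 + w ^ 3 := by
    intro u w
    linear_combination (u ^ 2 * w + u * w ^ 2) * h30
  have hrel2 : a + b * (t - 1) + c * (t - 1) ^ 2 = 0 := by
    have h := congrArg (· ^ 3) hrel1
    simp only [frob, mul_pow, ha3, hb3, hc3] at h
    rw [← pow_mul, mul_comm 2 3, pow_mul, ht3] at h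
    simpa using h
  have hrel3 : a + b * (t - 2) + c * (t - 2) ^ 2 = 0 := by
    have h := congrArg (· ^ 3) hrel2
    have e1 : (t - 1) ^ 3 = t - 2 := by
      have := frob t (-1)
      linear_combination this + ht3
    simp only [frob, mul_pow, ha3, hb3, hc3] at h
    rw [← pow_mul, mul_comm 2 3, pow_mul, e1] at h
    simpa using h
  have two_ne : (2 : IsLocalRing.ResidueField V) ≠ 0 := by
    intro h2
    have : (1 : IsLocalRing.ResidueField V) = 0 := by linear_combination h30 - h2
    exact one_ne_zero this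
  have hc0 : c = 0 := by
    have : 2 * c = 0 := by linear_combination hrel1 - 2 * hrel2 + hrel3
    exact (mul_eq_zero.mp this).resolve_left two_ne
  have hb0 : b = 0 := by
    rw [hc0] at hrel1 hrel2
    linear_combination hrel1 - hrel2
  have ha0 : a = 0 := by
    rw [hc0, hb0] at hrel1
    linear_combination hrel1
  have one : r 1 = 1 := map_one r
  have key : ∀ i, r ⟨_, hgV i⟩ = 0 := by
    intro i
    fin_cases i
    · exact ha0
    · exact hb0
    · exact hc0
  have := key i
  have h1 : (⟨_, hgV i⟩ : V) = 1 := by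
    apply Subtype.ext
    simp [hi]
  rw [h1, one] at this
  exact one_ne_zero this

/-- Part 2: a quadratic field cannot contain both a square root of `-1` modulo a place above
`3` and an element of half the valuation of `3`. -/
lemma no_both [Algebra ℚ K] (hK : Module.finrank ℚ K = 2) (h3 : V.valuation (3 : K) < 1)
    (u z : K) (hu : V.valuation u ≤ 1) (hu2 : V.valuation (u ^ 2 + 1) < 1)
    (hz : V.valuation z ^ 2 = V.valuation 3) : False := by
  have huV : u ∈ V := (ValuationSubring.valuation_le_one_iff _ _).mp hu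
  obtain ⟨g, hg, ⟨i, hi⟩, hrel⟩ := dep3 V hK ![1, u, z]
  simp only [Matrix.cons_val_zero, Matrix.cons_val_one, Matrix.cons_val_two, Matrix.head_cons,
    Matrix.tail_cons] at hrel
  set r := IsLocalRing.residue V with hr
  have h30 := residue_three V h3
  have two_ne : (2 : IsLocalRing.ResidueField V) ≠ 0 := by
    intro h2
    have : (1 : IsLocalRing.ResidueField V) = 0 := by linear_combination h30 - h2
    exact one_ne_zero this
  have hu2' : (r ⟨u, huV⟩) ^ 2 = -1 := by
    have : r (⟨u, huV⟩ ^ 2 + 1) = 0 := by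
      rw [hr, IsLocalRing.residue_eq_zero_iff, ValuationSubring.valuation_lt_one_iff]
      simpa using hu2
    rw [map_add, map_pow, map_one] at this
    linear_combination this
  -- the valuation of 1 + q u and q + u for q in V rational
  have unit1 : ∀ q : ℚ, V.valuation (q : K) ≤ 1 → V.valuation (1 + (q : K) * u) = 1 := by
    intro q hq
    have hqV := (ValuationSubring.valuation_le_one_iff _ _).mp hq
    by_contra hne
    have hlt : V.valuation (1 + (q : K) * u) < 1 := by
      refine lt_of_le_of_ne ?_ hne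
      rw [ValuationSubring.valuation_le_one_iff]
      exact add_mem (one_mem V) (mul_mem hqV huV)
    have hs := residue_rat_cube V h3 q hqV
    rw [← hr] at hs
    set s := r ⟨_, hqV⟩
    have h1 : 1 + s * r ⟨u, huV⟩ = 0 := by
      have : r (1 + ⟨_, hqV⟩ * ⟨u, huV⟩) = 0 := by
        rw [hr, IsLocalRing.residue_eq_zero_iff, ValuationSubring.valuation_lt_one_iff]
        simpa using hlt
      rw [map_add, map_mul, map_one] at this
      exact this
    set w := r ⟨u, huV⟩
    have h2 : s ^ 2 = -1 := by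
      linear_combination (s ^ 2) * hu2' + (1 - s * w) * h1
    have h4 : 2 * s = 0 := by
      linear_combination s * h2 - hs
    have hs0 := (mul_eq_zero.mp h4).resolve_left two_ne
    rw [hs0] at h1
    simp at h1
  have unit2 : ∀ q : ℚ, V.valuation (q : K) ≤ 1 → V.valuation ((q : K) + u) = 1 := by
    intro q hq
    have hqV := (ValuationSubring.valuation_le_one_iff _ _).mp hq
    by_contra hne
    have hlt : V.valuation ((q : K) + u) < 1 := by
      refine lt_of_le_of_ne ?_ hne
      rw [ValuationSubring.valuation_le_one_iff]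
      exact add_mem hqV huV
    have hs := residue_rat_cube V h3 q hqV
    rw [← hr] at hs
    set s := r ⟨_, hqV⟩
    have h1 : s + r ⟨u, huV⟩ = 0 := by
      have : r (⟨_, hqV⟩ + ⟨u, huV⟩) = 0 := by
        rw [hr, IsLocalRing.residue_eq_zero_iff, ValuationSubring.valuation_lt_one_iff]
        simpa using hlt
      rw [map_add] at this
      exact this
    set w := r ⟨u, huV⟩
    have h2 : s ^ 2 = -1 := by
      linear_combination hu2' + (s - w) * h1
    have h4 : 2 * s = 0 := by
      linear_combination s * h2 - hs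
    have hs0 := (mul_eq_zero.mp h4).resolve_left two_ne
    rw [hs0] at h2
    simp at h2
  have hv3 : V.valuation (3 : K) ≠ 0 := by
    rw [Valuation.ne_zero_iff]; norm_num
  -- the valuation of `a + b u` is that of a rational number
  have key : ∀ a b : ℚ, (a ≠ 0 ∨ b ≠ 0) →
      ∃ n : ℤ, V.valuation ((a : K) + (b : K) * u) = V.valuation (3 : K) ^ n := by
    intro a b hab
    by_cases hle : V.valuation (b : K) ≤ V.valuation (a : K)
    · have ha : a ≠ 0 := by
        rintro rfl
        simp only [Rat.cast_zero, map_zero, le_zero_iff, Valuation.zero_iff,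
          Rat.cast_eq_zero] at hle
        rcases hab with h | h
        · exact h rfl
        · exact h hle
      have haK : (a : K) ≠ 0 := by exact_mod_cast ha
      obtain ⟨n, hn⟩ := val_rat V h3 a ha
      refine ⟨n, ?_⟩
      have e : (a : K) + (b : K) * u = (a : K) * (1 + ((b / a : ℚ) : K) * u) := by
        push_cast; field_simp
      rw [e, map_mul, unit1, mul_one, hn]
      have : ((b / a : ℚ) : K) = (b : K) / (a : K) := by push_cast; rfl
      rw [this, map_div₀]
      exact div_le_one_of_le₀ hle zero_le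
    · push Not at hle
      have hb : b ≠ 0 := by
        rintro rfl
        simp at hle
      have hbK : (b : K) ≠ 0 := by exact_mod_cast hb
      obtain ⟨n, hn⟩ := val_rat V h3 b hb
      refine ⟨n, ?_⟩
      have e : (a : K) + (b : K) * u = (b : K) * (((a / b : ℚ) : K) + u) := by
        push_cast; field_simp
      rw [e, map_mul, unit2, mul_one, hn]
      have : ((a / b : ℚ) : K) = (a : K) / (b : K) := by push_cast; rfl
      rw [this, map_div₀]
      exact div_le_one_of_le₀ hle.le zero_le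
  by_cases hc : g 2 = 0
  · have hab : g 0 ≠ 0 ∨ g 1 ≠ 0 := by
      by_contra h
      push Not at h
      fin_cases i
      · simp [h.1] at hi
      · simp [h.2] at hi
      · simp [hc] at hi
    obtain ⟨n, hn⟩ := key (g 0) (g 1) hab
    have e0 : ((g 0 : ℚ) : K) + ((g 1 : ℚ) : K) * u = 0 := by
      rw [hc] at hrel
      simpa using hrel
    rw [e0, map_zero] at hn
    exact zpow_ne_zero n hv3 hn.symm
  · by_cases hab : g 0 ≠ 0 ∨ g 1 ≠ 0
    · obtain ⟨n, hn⟩ := key (g 0) (g 1) hab
      obtain ⟨m, hm⟩ := val_rat V h3 (g 2) hc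
      have e0 : ((g 2 : ℚ) : K) * z = -(((g 0 : ℚ) : K) + ((g 1 : ℚ) : K) * u) := by
        linear_combination hrel
      have e1 := congrArg V.valuation e0
      rw [map_mul, Valuation.map_neg, hn, hm] at e1
      have e2 : V.valuation (3 : K) ^ (m * 2 + 1) = V.valuation (3 : K) ^ (n * 2) := by
        rw [zpow_mul, ← e1, zpow_add₀ hv3, zpow_mul, zpow_one]
        rw [mul_zpow]
        congr 1
        exact_mod_cast hz.symm
      have hinj := zpow_right_injective₀ (zero_lt_iff.mpr hv3) h3.ne e2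
      omega
    · push Not at hab
      have : ((g 2 : ℚ) : K) * z = 0 := by
        rw [hab.1, hab.2] at hrel
        simpa using hrel
      have hz0 : z = 0 := by
        rcases mul_eq_zero.mp this with h | h
        · exact absurd (by exact_mod_cast h) hc
        · exact h
      rw [hz0, map_zero] at hz
      simp at hz
      exact hv3 hz.symm

/-- the sextic form `(X^3 - X S^2 + S^3)^2 + 3 S^6`. -/
lemma form_norm [Algebra ℚ K] (hK : Module.finrank ℚ K = 2) (h3 : V.valuation (3 : K) < 1)
    (X S : K) (h : ¬ (X = 0 ∧ S = 0)) :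
    ∃ l u s : K, l ≠ 0 ∧ V.valuation u = 1 ∧ V.valuation s ≤ 1 ∧
      (X ^ 3 - X * S ^ 2 + S ^ 3) ^ 2 + 3 * S ^ 6 = l ^ 6 * (u ^ 2 + 3 * s ^ 6) := by
  by_cases hle : V.valuation X ≤ V.valuation S
  · have hS : S ≠ 0 := by
      rintro rfl
      simp only [map_zero, le_zero_iff, Valuation.zero_iff] at hle
      exact h ⟨hle, rfl⟩
    refine ⟨S, (X / S) ^ 3 - (X / S) + 1, 1, hS, ?_, by simp, ?_⟩
    · apply cubic_unit V hK h3
      rw [map_div₀]
      exact div_le_one_of_le₀ hle zero_le
    · field_simp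
  · push Not at hle
    have hX : X ≠ 0 := by
      rintro rfl
      simp at hle
    refine ⟨X, 1 + (S / X) ^ 2 * ((S / X) - 1), S / X, hX, ?_, ?_, ?_⟩
    · have hlt : V.valuation (S / X) < 1 := by
        rw [map_div₀]
        exact (div_lt_one₀ (lt_of_le_of_lt zero_le hle)).mpr hle
      apply Valuation.map_one_add_of_lt
      rw [map_mul, map_pow]
      apply mul_lt_b
      · exact pow_lt_one₀ zero_le hlt two_ne_zero
      · refine (Valuation.map_sub _ _ _).trans ?_
        rw [map_one, max_le_iff]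
        exact ⟨hlt.le, le_refl _⟩
    · rw [map_div₀]
      exact div_le_one_of_le₀ hle.le zero_le
    · field_simp
      ring

omit [CharZero K] in
lemma unit_add (h3 : V.valuation (3 : K) < 1) (u s : K) (hu : V.valuation u = 1)
    (hs : V.valuation s ≤ 1) : V.valuation (u ^ 2 + 3 * s ^ 6) = 1 := by
  rw [Valuation.map_add_eq_of_lt_left]
  · rw [map_pow, hu, one_pow]
  · rw [map_mul, map_pow, map_pow, hu, one_pow]
    exact mul_lt_b h3 (pow_le_one₀ zero_le hs)

/-- **Arithmetic core.**  Let `K` be a quadratic extension of `ℚ`.  There is no pair consisting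
of a `K`-point of `Y^2 = -H(X, S)` and a `K`-point of `Z^2 = 3 H(T, U)` where
`H(X, S) = (X^3 - X S^2 + S^3)^2 + 3 S^6`. -/
theorem no_points (K : Type*) [Field K] [Algebra ℚ K] (hK : Module.finrank ℚ K = 2)
    (X S Y T U Z : K) (hXS : ¬ (X = 0 ∧ S = 0)) (hTU : ¬ (T = 0 ∧ U = 0))
    (hC : Y ^ 2 = -((X ^ 3 - X * S ^ 2 + S ^ 3) ^ 2 + 3 * S ^ 6))
    (hD : Z ^ 2 = 3 * ((T ^ 3 - T * U ^ 2 + U ^ 3) ^ 2 + 3 * U ^ 6)) : False := by
  have : CharZero K := algebraRat.charZero K
  obtain ⟨V, h3⟩ := exists_valuationSubring K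
  obtain ⟨l, u, s, hl, hu, hs, e⟩ := form_norm V hK h3 X S hXS
  obtain ⟨l', u', s', hl', hu', hs', e'⟩ := form_norm V hK h3 T U hTU
  rw [e] at hC
  rw [e'] at hD
  have hu0 : u ≠ 0 := by
    rintro rfl
    simp at hu
  have h1 : (Y / (l ^ 3 * u)) ^ 2 + 1 = -(3 * (s ^ 6 / u ^ 2)) := by
    field_simp
    linear_combination hC
  have h2 : V.valuation ((Y / (l ^ 3 * u)) ^ 2 + 1) < 1 := by
    rw [h1, Valuation.map_neg, map_mul, map_div₀, map_pow, map_pow, hu, one_pow, div_one]
    exact mul_lt_b h3 (pow_le_one₀ zero_le hs)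
  have h3' : V.valuation (Y / (l ^ 3 * u)) ≤ 1 := by
    have h4 : V.valuation ((Y / (l ^ 3 * u)) ^ 2) ≤ 1 := by
      have : (Y / (l ^ 3 * u)) ^ 2 = ((Y / (l ^ 3 * u)) ^ 2 + 1) - 1 := by ring
      rw [this]
      refine (Valuation.map_sub _ _ _).trans ?_
      simp [h2.le]
    rw [map_pow] at h4
    exact (pow_le_one_iff_of_nonneg zero_le two_ne_zero).mp h4
  have h5 : V.valuation (Z / l' ^ 3) ^ 2 = V.valuation 3 := by
    have e1 : (Z / l' ^ 3) ^ 2 = 3 * (u' ^ 2 + 3 * s' ^ 6) := by
      field_simp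
      linear_combination hD
    rw [← map_pow, e1, map_mul, unit_add V h3 u' s' hu' hs', mul_one]
  exact no_both V hK h3 _ _ h3' h2 h5

end Pool.Agent.helper52.Arith
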