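import Mathlib

set_option autoImplicit false
set_option linter.unusedSectionVars false

open AlgebraicGeometry CategoryTheory Limits

universe u

namespace Pool.Agent.helper52

section Glue

variable {U₀ U₁ U₀₁ : Scheme.{u}} (a : U₀₁ ⟶ U₀) (b : U₀₁ ⟶ U₁) [IsOpenImmersion a]
  [IsOpenImmersion b]

instance span_open {i j : WalkingSpan} (f : i ⟶ j) : IsOpenImmersion ((span a b).map f) := by
  rcases f with _ | i
  · simp only [WidePushoutShape.hom_id, Functor.map_id]; infer_instance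
  · cases i
    · exact inferInstanceAs (IsOpenImmersion a)
    · exact inferInstanceAs (IsOpenImmersion b)

/-- The scheme obtained by gluing `U₀` and `U₁` along `U₀₁`. -/
noncomputable def glue2 : Scheme.{u} := colimit (span a b)

namespace glue2

/-- first chart -/
noncomputable def ι₀ : U₀ ⟶ glue2 a b := colimit.ι (span a b) WalkingSpan.left
/-- second chart -/
noncomputable def ι₁ : U₁ ⟶ glue2 a b := colimit.ι (span a b) WalkingSpan.right

instance : IsOpenImmersion (ι₀ a b) :=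
  inferInstanceAs (IsOpenImmersion (colimit.ι (span a b) WalkingSpan.left))
instance : IsOpenImmersion (ι₁ a b) :=
  inferInstanceAs (IsOpenImmersion (colimit.ι (span a b) WalkingSpan.right))

lemma w : a ≫ ι₀ a b = b ≫ ι₁ a b := by
  have h0 := colimit.w (span a b) WalkingSpan.Hom.fst
  have h1 := colimit.w (span a b) WalkingSpan.Hom.snd
  exact h0.trans h1.symm

lemma cover (x : glue2 a b) : (∃ y, ι₀ a b y = x) ∨ (∃ y, ι₁ a b y = x) := by
  obtain ⟨i, y, hy⟩ := Scheme.IsLocallyDirected.ι_jointly_surjective (span a b) x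
  match i, y, hy with
  | WalkingSpan.left, y, hy => exact Or.inl ⟨y, hy⟩
  | WalkingSpan.right, y, hy => exact Or.inr ⟨y, hy⟩
  | WalkingSpan.zero, y, hy =>
    left
    refine ⟨a y, ?_⟩
    have h0 := colimit.w (span a b) WalkingSpan.Hom.fst
    rw [← hy, ← h0]
    rfl

lemma inter (x : U₀) (y : U₁) (h : ι₀ a b x = ι₁ a b y) : ∃ z : U₀₁, a z = x ∧ b z = y := by
  have := (Scheme.IsLocallyDirected.ι_eq_ι_iff (span a b) (i := WalkingSpan.left)
    (j := WalkingSpan.right) (xi := x) (xj := y)).mp h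
  obtain ⟨k, fi, fj, z, h1, h2⟩ := this
  rcases fi with _ | _
  · rcases fj
  · rcases fj with _ | _
    exact ⟨z, h1, h2⟩

/-- gluing morphisms -/
noncomputable def desc {Y : Scheme.{u}} (f : U₀ ⟶ Y) (g : U₁ ⟶ Y) (h : a ≫ f = b ≫ g) :
    glue2 a b ⟶ Y := pushout.desc f g h

@[reassoc (attr := simp)]
lemma ι₀_desc {Y : Scheme.{u}} (f : U₀ ⟶ Y) (g : U₁ ⟶ Y) (h : a ≫ f = b ≫ g) :
    ι₀ a b ≫ desc a b f g h = f := pushout.inl_desc f g h

@[reassoc (attr := simp)]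
lemma ι₁_desc {Y : Scheme.{u}} (f : U₀ ⟶ Y) (g : U₁ ⟶ Y) (h : a ≫ f = b ≫ g) :
    ι₁ a b ≫ desc a b f g h = g := pushout.inr_desc f g h

lemma hom_ext {Y : Scheme.{u}} {f g : glue2 a b ⟶ Y} (h0 : ι₀ a b ≫ f = ι₀ a b ≫ g)
    (h1 : ι₁ a b ≫ f = ι₁ a b ≫ g) : f = g := pushout.hom_ext h0 h1

/-- the two charts form an open cover -/
noncomputable def openCover : (glue2 a b).OpenCover :=
  (Scheme.IsLocallyDirected.openCover (span a b))

end glue2

section Relative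

variable {V₀ V₁ V₀₁ P : Scheme.{u}} (c₀ : V₀ ⟶ P) (c₁ : V₁ ⟶ P) (a' : V₀₁ ⟶ V₀) (b' : V₀₁ ⟶ V₁)
  [IsOpenImmersion c₀] [IsOpenImmersion c₁] (hab : a' ≫ c₀ = b' ≫ c₁)
  (hinter : ∀ x y, c₀ x = c₁ y → ∃ z, a' z = x ∧ b' z = y)
  (n₀ : U₀ ⟶ V₀) (n₁ : U₁ ⟶ V₁) (n₀₁ : U₀₁ ⟶ V₀₁)
  (h0 : IsPullback n₀₁ a a' n₀) (h1 : IsPullback n₀₁ b b' n₁)

include hab h0 h1 in
lemma relative_w : a ≫ n₀ ≫ c₀ = b ≫ n₁ ≫ c₁ := by
  rw [← reassoc_of% h0.w, hab, reassoc_of% h1.w]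

/-- the glued morphism -/
noncomputable def relDesc : glue2 a b ⟶ P :=
  glue2.desc a b (n₀ ≫ c₀) (n₁ ≫ c₁) (relative_w a b c₀ c₁ a' b' hab n₀ n₁ n₀₁ h0 h1)

include hinter in
lemma relDesc_isPullback₀ :
    IsPullback n₀ (glue2.ι₀ a b) c₀ (relDesc a b c₀ c₁ a' b' hab n₀ n₁ n₀₁ h0 h1) := by
  apply IsOpenImmersion.isPullback
  · simp [relDesc]
  · apply le_antisymm
    · rintro x ⟨y, hy⟩
      rcases glue2.cover a b x with ⟨z, rfl⟩ | ⟨z, rfl⟩
      · exact ⟨z, rfl⟩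
      · have h2 : c₀ y = c₁ (n₁ z) := by
          rw [hy, ← Scheme.Hom.comp_apply, relDesc, glue2.ι₁_desc, Scheme.Hom.comp_apply]
        obtain ⟨t, ht0, ht1⟩ := hinter _ _ h2
        obtain ⟨s, hs0, hs1⟩ := Scheme.exists_preimage_of_isPullback h1 t z ht1
        refine ⟨a s, ?_⟩
        rw [← hs1, ← Scheme.Hom.comp_apply, ← Scheme.Hom.comp_apply, glue2.w]
    · rintro _ ⟨y, rfl⟩
      refine ⟨n₀ y, ?_⟩
      rw [← Scheme.Hom.comp_apply, ← Scheme.Hom.comp_apply, relDesc, glue2.ι₀_desc]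

include hinter in
lemma relDesc_isPullback₁ :
    IsPullback n₁ (glue2.ι₁ a b) c₁ (relDesc a b c₀ c₁ a' b' hab n₀ n₁ n₀₁ h0 h1) := by
  apply IsOpenImmersion.isPullback
  · simp [relDesc]
  · apply le_antisymm
    · rintro x ⟨y, hy⟩
      rcases glue2.cover a b x with ⟨z, rfl⟩ | ⟨z, rfl⟩
      · have h2 : c₀ (n₀ z) = c₁ y := by
          rw [hy, ← Scheme.Hom.comp_apply, ← Scheme.Hom.comp_apply, relDesc, glue2.ι₀_desc]
        obtain ⟨t, ht0, ht1⟩ := hinter _ _ h2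
        obtain ⟨s, hs0, hs1⟩ := Scheme.exists_preimage_of_isPullback h0 t z ht0
        refine ⟨b s, ?_⟩
        rw [← hs1, ← Scheme.Hom.comp_apply, ← Scheme.Hom.comp_apply, glue2.w]
      · exact ⟨z, rfl⟩
    · rintro _ ⟨y, rfl⟩
      refine ⟨n₁ y, ?_⟩
      rw [← Scheme.Hom.comp_apply, ← Scheme.Hom.comp_apply, relDesc, glue2.ι₁_desc]

end Relative

end Glue

end Pool.Agent.helper52
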