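import Mathlib

set_option autoImplicit false

open AlgebraicGeometry CategoryTheory Limits

universe u

namespace Pool.Agent.helper52

/-! Projective space over a field. -/

section ProjectiveSpace

attribute [local instance] MvPolynomial.gradedAlgebra

/-- The homogeneous coordinate ring `k[X₀, …, Xₙ]` of `ℙⁿ`, as a graded ring: the `d`-th graded
piece is the space of homogeneous polynomials of degree `d`. -/
abbrev gr (n : ℕ) (k : Type u) [Field k] : ℕ → Submodule k (MvPolynomial (Fin (n + 1)) k) :=
  MvPolynomial.homogeneousSubmodule (Fin (n + 1)) k

/-- Projective `n`-space over the field `k`: `Proj k[X₀, …, Xₙ]`. -/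
noncomputable abbrev PP (n : ℕ) (k : Type u) [Field k] : Scheme.{u} := Proj (gr n k)

/-- The structure morphism `ℙⁿ_k ⟶ Spec k`. -/
noncomputable def PP.toSpec (n : ℕ) (k : Type u) [Field k] : PP n k ⟶ Spec (.of k) :=
  Proj.toSpecZero (gr n k) ≫ Spec.map (CommRingCat.ofHom (algebraMap k (gr n k 0)))

end ProjectiveSpace

/-! Regular differential forms and the genus. -/

section Genus

variable {k : Type u} [Field k] {X : Scheme.{u}}

/-- The structure homomorphism `k → O_{X,x}` of a scheme over `k`. -/
noncomputable def kStalk (p : X ⟶ Spec (.of k)) (x : X) : k →+* X.presheaf.stalk x :=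
  (Spec.preimage (X.fromSpecStalk x ≫ p)).hom

variable [AlgebraicGeometry.IsIntegral X]

/-- The `k`-vector space of regular differential forms on an integral scheme `X` over `k`, with
function field `K`: the forms `ω ∈ Ω[K⁄k]` such that at every point `x` of `X`, `ω` is a sum of
forms `a • d b` with `a` and `b` in the local ring `O_{X,x}`. -/
noncomputable def regularDifferentials (p : X ⟶ Spec (.of k)) :
    letI : Algebra k X.functionField := (kStalk p (genericPoint X)).toAlgebra
    Submodule k (Ω[X.functionField⁄k]) :=
  letI : Algebra k X.functionField := (kStalk p (genericPoint X)).toAlgebra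
  ⨅ x : X, Submodule.span k {η | ∃ a b : X.presheaf.stalk x,
    η = algebraMap (X.presheaf.stalk x) X.functionField a •
      KaehlerDifferential.D k X.functionField (algebraMap (X.presheaf.stalk x) X.functionField b)}

/-- The genus of a smooth projective geometrically integral curve over `k`: the dimension over `k`
of its space of regular differential forms. -/
noncomputable def genus (p : X ⟶ Spec (.of k)) : Cardinal :=
  letI : Algebra k X.functionField := (kStalk p (genericPoint X)).toAlgebra
  Module.rank k (regularDifferentials p)

end Genus

/-! Degrees of points and the density degree set. -/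

section Degree

variable {k : Type u} [Field k] {X : Scheme.{u}}

/-- The structure homomorphism `k → κ(x)` for a point `x` of a scheme over `k`. -/
noncomputable def resMap (p : X ⟶ Spec (.of k)) (x : X) : k →+* X.residueField x :=
  (Spec.preimage (X.fromSpecResidueField x ≫ p)).hom

/-- The degree `[κ(x) : k]` of a point `x` (and `0` if it is infinite). -/
noncomputable def pointDegree (p : X ⟶ Spec (.of k)) (x : X) : ℕ :=
  letI := (resMap p x).toAlgebra
  Module.finrank k (X.residueField x)

/-- The set of closed points of degree `d`. -/
def pointsOfDegree (p : X ⟶ Spec (.of k)) (d : ℕ) : Set X :=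
  {x | IsClosed {x} ∧ pointDegree p x = d}

/-- The density degree set: all `d ≥ 1` such that the closed points of degree `d` are Zariski
dense. -/
def densityDegreeSet (p : X ⟶ Spec (.of k)) : Set ℕ :=
  {d | 1 ≤ d ∧ Dense (pointsOfDegree p d)}

end Degree

/-! Nice curves and hyperelliptic curves. -/

section Curves

variable {k : Type u} [Field k] {C : Scheme.{u}}

/-- A nice curve over `k`: smooth of relative dimension one, projective (a closed subscheme of
some `ℙⁿ_k`) and geometrically integral. -/
structure IsNiceCurve (p : C ⟶ Spec (.of k)) : Prop where
  smooth : SmoothOfRelativeDimension 1 p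
  projective : ∃ (n : ℕ) (i : C ⟶ PP n k), IsClosedImmersion i ∧ i ≫ PP.toSpec n k = p
  geometricallyIntegral : GeometricallyIntegral p

/-- A hyperelliptic curve over `k`: a nice curve of genus at least two with a morphism of degree
two (finite and flat, of rank two at every point) to `ℙ¹_k` defined over `k`. -/
structure IsHyperelliptic (p : C ⟶ Spec (.of k)) : Prop extends IsNiceCurve p where
  two_le_genus : ∃ _ : AlgebraicGeometry.IsIntegral C, 2 ≤ genus p
  doubleCover : ∃ π : C ⟶ PP 1 k, π ≫ PP.toSpec 1 k = p ∧ IsFinite π ∧ Flat π ∧
    ∀ y : PP 1 k, π.finrank y = 2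

end Curves

end Pool.Agent.helper52
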