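import Mathlib
import Pool.Agent.helper52.Defs

set_option autoImplicit false

open AlgebraicGeometry CategoryTheory Limits HomogeneousLocalization

universe u

namespace Pool.Agent.helper52

section AwayEval

variable {A R R' : Type*} [CommRing A] [CommRing R] [CommRing R'] {σ : Type*} [SetLike σ A]
  [AddSubgroupClass σ A] (𝒜 : ℕ → σ) [GradedRing 𝒜]

/-- The ring homomorphism `A_{(x)} → R` induced by `φ : A → R` when `φ x` is a unit. -/
noncomputable def awayEval (x : A) (φ : A →+* R) (h : IsUnit (φ x)) : Away 𝒜 x →+* R :=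
  (IsLocalization.Away.lift (S := Localization.Away x) x h).comp
    (algebraMap (Away 𝒜 x) (Localization.Away x))

lemma awayEval_mk {x : A} (φ : A →+* R) (h : IsUnit (φ x)) {d : ℕ} (hx : x ∈ 𝒜 d) (n : ℕ)
    (a : A) (ha : a ∈ 𝒜 (n • d)) :
    awayEval 𝒜 x φ h (Away.mk 𝒜 hx n a ha) * φ x ^ n = φ a := by
  have h1 : algebraMap (Away 𝒜 x) (Localization.Away x) (Away.mk 𝒜 hx n a ha) =
      Localization.mk a (⟨x ^ n, ⟨n, rfl⟩⟩ : Submonoid.powers x) := rfl
  rw [awayEval, RingHom.comp_apply, h1, Localization.mk_eq_mk', ← map_pow]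
  rw [← IsLocalization.Away.lift_eq (S := Localization.Away x) x h (x ^ n), ← map_mul,
    ← IsLocalization.Away.lift_eq (S := Localization.Away x) x h a]
  congr 1
  exact IsLocalization.mk'_spec (Localization.Away x) a (⟨x ^ n, ⟨n, rfl⟩⟩ : Submonoid.powers x)

lemma awayEval_ext {x : A} {d : ℕ} (hx : x ∈ 𝒜 d) {ψ ψ' : Away 𝒜 x →+* R}
    (h : ∀ (n : ℕ) (a : A) (ha : a ∈ 𝒜 (n • d)),
      ψ (Away.mk 𝒜 hx n a ha) = ψ' (Away.mk 𝒜 hx n a ha)) : ψ = ψ' := by
  ext z
  obtain ⟨n, a, ha, rfl⟩ := Away.mk_surjective 𝒜 hx z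
  exact h n a ha

lemma awayEval_unique {x : A} (φ : A →+* R) (h : IsUnit (φ x)) {d : ℕ} (hx : x ∈ 𝒜 d)
    (ψ : Away 𝒜 x →+* R)
    (hψ : ∀ (n : ℕ) (a : A) (ha : a ∈ 𝒜 (n • d)), ψ (Away.mk 𝒜 hx n a ha) * φ x ^ n = φ a) :
    ψ = awayEval 𝒜 x φ h := by
  apply awayEval_ext 𝒜 hx
  intro n a ha
  have := (hψ n a ha).trans (awayEval_mk 𝒜 φ h hx n a ha).symm
  exact (h.pow n).mul_right_cancel this

lemma comp_awayEval {x : A} (φ : A →+* R) (h : IsUnit (φ x)) (ρ : R →+* R') {d : ℕ}
    (hx : x ∈ 𝒜 d) :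
    ρ.comp (awayEval 𝒜 x φ h) = awayEval 𝒜 x (ρ.comp φ) (h.map ρ) := by
  apply awayEval_unique 𝒜 _ _ hx
  intro n a ha
  rw [RingHom.comp_apply, RingHom.comp_apply, RingHom.comp_apply, ← map_pow, ← map_mul,
    awayEval_mk]

lemma awayEval_comp_awayMap {x y z : A} (φ : A →+* R) (hy : IsUnit (φ y)) {d e : ℕ}
    (hxd : x ∈ 𝒜 d) (hze : z ∈ 𝒜 e) (hyz : y = x * z) (hx : IsUnit (φ x)) :
    (awayEval 𝒜 y φ hy).comp (awayMap 𝒜 hze hyz) = awayEval 𝒜 x φ hx := by
  apply awayEval_unique 𝒜 _ _ hxd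
  intro n a ha
  rw [RingHom.comp_apply, awayMap_mk]
  have h1 := awayEval_mk 𝒜 φ hy (hyz ▸ SetLike.mul_mem_graded hxd hze) n (a * z ^ n)
    (by rw [smul_add]; exact SetLike.mul_mem_graded ha (SetLike.pow_mem_graded n hze))
  have hz : IsUnit (φ z) := by
    rw [hyz, map_mul] at hy
    exact isUnit_of_mul_isUnit_right hy
  apply (hz.pow n).mul_right_cancel
  have h2 : φ y = φ x * φ z := by rw [hyz, map_mul]
  rw [h2, map_mul, map_pow] at h1
  rw [mul_assoc, ← mul_pow, h1]

end AwayEval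

section Scaling

attribute [local instance] MvPolynomial.gradedAlgebra

variable {k : Type*} [CommRing k] {R : Type*} [CommRing R] {ι : Type*}

lemma scale_homog (φ φ' : MvPolynomial ι k →+* R) (v : R)
    (hC : ∀ c, φ' (MvPolynomial.C c) = φ (MvPolynomial.C c))
    (hX : ∀ i, φ' (MvPolynomial.X i) = v * φ (MvPolynomial.X i)) (n : ℕ)
    (a : MvPolynomial ι k) (ha : a ∈ MvPolynomial.homogeneousSubmodule ι k n) :
    φ' a = v ^ n * φ a := by
  rw [MvPolynomial.mem_homogeneousSubmodule] at ha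
  rw [a.as_sum, map_sum, map_sum, Finset.mul_sum]
  refine Finset.sum_congr rfl fun m hm => ?_
  have hdeg : m.degree = n := by
    have := ha (MvPolynomial.mem_support_iff.mp hm)
    rw [Finsupp.weight_apply] at this
    simp only [Pi.one_apply, smul_eq_mul, mul_one] at this
    exact this
  rw [MvPolynomial.monomial_eq, map_mul, map_mul, hC, Finsupp.prod, map_prod, map_prod]
  have : ∏ x ∈ m.support, φ' (MvPolynomial.X x ^ m x) =
      v ^ n * ∏ x ∈ m.support, φ (MvPolynomial.X x ^ m x) := by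
    rw [← hdeg, Finsupp.degree_apply, ← Finset.prod_pow_eq_pow_sum, ← Finset.prod_mul_distrib]
    refine Finset.prod_congr rfl fun i _ => ?_
    rw [map_pow, hX, mul_pow, map_pow]
  rw [this]
  ring

lemma awayEval_scale {x : MvPolynomial ι k} (φ φ' : MvPolynomial ι k →+* R) (v : R)
    (hC : ∀ c, φ' (MvPolynomial.C c) = φ (MvPolynomial.C c))
    (hX : ∀ i, φ' (MvPolynomial.X i) = v * φ (MvPolynomial.X i)) {d : ℕ}
    (hx : x ∈ MvPolynomial.homogeneousSubmodule ι k d) (h : IsUnit (φ x)) (h' : IsUnit (φ' x)) :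
    awayEval (MvPolynomial.homogeneousSubmodule ι k) x φ h =
      awayEval (MvPolynomial.homogeneousSubmodule ι k) x φ' h' := by
  apply awayEval_unique _ _ _ hx
  intro n a ha
  rw [scale_homog φ φ' v hC hX d x hx, scale_homog φ φ' v hC hX _ a ha, mul_pow, ← pow_mul,
    mul_left_comm, awayEval_mk]
  congr 2
  rw [smul_eq_mul, mul_comm]

end Scaling

section P1

attribute [local instance] MvPolynomial.gradedAlgebra

open Polynomial

variable (k : Type u) [Field k]

/-- the evaluation `X₀ ↦ 1, X₁ ↦ X`. -/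
noncomputable def ev0 : MvPolynomial (Fin 2) k →ₐ[k] k[X] := MvPolynomial.aeval ![1, X]

/-- the evaluation `X₀ ↦ X, X₁ ↦ 1`. -/
noncomputable def ev1 : MvPolynomial (Fin 2) k →ₐ[k] k[X] := MvPolynomial.aeval ![X, 1]

/-- the evaluation `X₀ ↦ 1, X₁ ↦ T`. -/
noncomputable def ev01 : MvPolynomial (Fin 2) k →ₐ[k] LaurentPolynomial k :=
  MvPolynomial.aeval ![1, LaurentPolynomial.T 1]

lemma homog_eq_zero0 (n : ℕ) (a : MvPolynomial (Fin 2) k)
    (ha : a ∈ MvPolynomial.homogeneousSubmodule (Fin 2) k n) (h : ev0 k a = 0) : a = 0 := by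
  let F := FractionRing (MvPolynomial (Fin 2) k)
  let x0 : F := algebraMap _ _ (MvPolynomial.X 0 : MvPolynomial (Fin 2) k)
  let x1 : F := algebraMap _ _ (MvPolynomial.X 1 : MvPolynomial (Fin 2) k)
  have hinj : Function.Injective (algebraMap (MvPolynomial (Fin 2) k) F) :=
    IsFractionRing.injective _ _
  have hx0 : x0 ≠ 0 := by
    intro h0
    have := hinj (h0.trans (map_zero _).symm)
    exact MvPolynomial.X_ne_zero (R := k) (0 : Fin 2) this
  let ρ : k[X] →ₐ[k] F := Polynomial.aeval (x1 / x0)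
  have key := scale_homog ((ρ.comp (ev0 k)).toRingHom) (algebraMap (MvPolynomial (Fin 2) k) F) x0
    (by
      intro c
      simp only [AlgHom.toRingHom_eq_coe, RingHom.coe_coe]
      have h1 : (MvPolynomial.C c : MvPolynomial (Fin 2) k) = algebraMap k _ c := rfl
      rw [h1, AlgHom.commutes]
      exact (IsScalarTower.algebraMap_apply k (MvPolynomial (Fin 2) k) F c).symm)
    (by
      intro i
      fin_cases i
      · have : (ρ.comp (ev0 k)).toRingHom (MvPolynomial.X 0) = 1 := by simp [ev0]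
        exact (mul_one x0).symm.trans (congrArg (x0 * ·) this.symm)
      · have : (ρ.comp (ev0 k)).toRingHom (MvPolynomial.X 1) = x1 / x0 := by simp [ev0, ρ]
        exact (mul_div_cancel₀ x1 hx0).symm.trans (congrArg (x0 * ·) this.symm))
    n a ha
  apply hinj
  rw [key, map_zero]
  have : ((ρ.comp (ev0 k)).toRingHom) a = ρ (ev0 k a) := rfl
  rw [this, h, map_zero, mul_zero]

lemma homog_eq_zero1 (n : ℕ) (a : MvPolynomial (Fin 2) k)
    (ha : a ∈ MvPolynomial.homogeneousSubmodule (Fin 2) k n) (h : ev1 k a = 0) : a = 0 := by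
  let F := FractionRing (MvPolynomial (Fin 2) k)
  let x0 : F := algebraMap _ _ (MvPolynomial.X 0 : MvPolynomial (Fin 2) k)
  let x1 : F := algebraMap _ _ (MvPolynomial.X 1 : MvPolynomial (Fin 2) k)
  have hinj : Function.Injective (algebraMap (MvPolynomial (Fin 2) k) F) :=
    IsFractionRing.injective _ _
  have hx1 : x1 ≠ 0 := by
    intro h0
    have := hinj (h0.trans (map_zero _).symm)
    exact MvPolynomial.X_ne_zero (R := k) (1 : Fin 2) this
  let ρ : k[X] →ₐ[k] F := Polynomial.aeval (x0 / x1)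
  have key := scale_homog ((ρ.comp (ev1 k)).toRingHom) (algebraMap (MvPolynomial (Fin 2) k) F) x1
    (by
      intro c
      simp only [AlgHom.toRingHom_eq_coe, RingHom.coe_coe]
      have h1 : (MvPolynomial.C c : MvPolynomial (Fin 2) k) = algebraMap k _ c := rfl
      rw [h1, AlgHom.commutes]
      exact (IsScalarTower.algebraMap_apply k (MvPolynomial (Fin 2) k) F c).symm)
    (by
      intro i
      fin_cases i
      · have : (ρ.comp (ev1 k)).toRingHom (MvPolynomial.X 0) = x0 / x1 := by simp [ev1, ρ]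
        exact (mul_div_cancel₀ x0 hx1).symm.trans (congrArg (x1 * ·) this.symm)
      · have : (ρ.comp (ev1 k)).toRingHom (MvPolynomial.X 1) = 1 := by simp [ev1]
        exact (mul_one x1).symm.trans (congrArg (x1 * ·) this.symm))
    n a ha
  apply hinj
  rw [key, map_zero]
  have : ((ρ.comp (ev1 k)).toRingHom) a = ρ (ev1 k a) := rfl
  rw [this, h, map_zero, mul_zero]

lemma X_mem (n : ℕ) (i : Fin (n + 1)) : (MvPolynomial.X i : MvPolynomial (Fin (n + 1)) k) ∈ gr n k 1 :=
  MvPolynomial.isHomogeneous_X k i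

lemma isUnit_ev0 : IsUnit ((ev0 k).toRingHom (MvPolynomial.X 0)) := by
  simp [ev0]

lemma isUnit_ev1 : IsUnit ((ev1 k).toRingHom (MvPolynomial.X 1)) := by
  simp [ev1]

lemma isUnit_ev01 : IsUnit ((ev01 k).toRingHom (MvPolynomial.X 0 * MvPolynomial.X 1)) := by
  simpa [ev01] using LaurentPolynomial.isUnit_T 1

/-- the chart `D₊(X₀) ≅ Spec k[X]`. -/
noncomputable def e0 : Away (gr 1 k) (MvPolynomial.X 0) →+* k[X] :=
  awayEval (gr 1 k) (MvPolynomial.X 0) (ev0 k).toRingHom (isUnit_ev0 k)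

/-- the chart `D₊(X₁) ≅ Spec k[X]`. -/
noncomputable def e1 : Away (gr 1 k) (MvPolynomial.X 1) →+* k[X] :=
  awayEval (gr 1 k) (MvPolynomial.X 1) (ev1 k).toRingHom (isUnit_ev1 k)

/-- the chart `D₊(X₀X₁) ≅ Spec k[T;T⁻¹]`. -/
noncomputable def e01 : Away (gr 1 k) (MvPolynomial.X 0 * MvPolynomial.X 1) →+*
    LaurentPolynomial k :=
  awayEval (gr 1 k) (MvPolynomial.X 0 * MvPolynomial.X 1) (ev01 k).toRingHom (isUnit_ev01 k)

lemma e0_mk (n : ℕ) (a : MvPolynomial (Fin 2) k) (ha : a ∈ gr 1 k (n • 1)) :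
    e0 k (Away.mk (gr 1 k) (X_mem k 1 0) n a ha) = ev0 k a := by
  have := awayEval_mk (gr 1 k) (ev0 k).toRingHom (isUnit_ev0 k) (X_mem k 1 0) n a ha
  have h1 : (ev0 k).toRingHom (MvPolynomial.X 0) = 1 := by simp [ev0]
  rw [h1, one_pow, mul_one] at this
  exact this

lemma e1_mk (n : ℕ) (a : MvPolynomial (Fin 2) k) (ha : a ∈ gr 1 k (n • 1)) :
    e1 k (Away.mk (gr 1 k) (X_mem k 1 1) n a ha) = ev1 k a := by
  have := awayEval_mk (gr 1 k) (ev1 k).toRingHom (isUnit_ev1 k) (X_mem k 1 1) n a ha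
  have h1 : (ev1 k).toRingHom (MvPolynomial.X 1) = 1 := by simp [ev1]
  rw [h1, one_pow, mul_one] at this
  exact this

lemma e01_mk (n : ℕ) (a : MvPolynomial (Fin 2) k) (ha : a ∈ gr 1 k (n • (1 + 1))) :
    e01 k (Away.mk (gr 1 k) (SetLike.mul_mem_graded (X_mem k 1 0) (X_mem k 1 1)) n a ha) *
      LaurentPolynomial.T n = ev01 k a := by
  have := awayEval_mk (gr 1 k) (ev01 k).toRingHom (isUnit_ev01 k)
    (SetLike.mul_mem_graded (X_mem k 1 0) (X_mem k 1 1)) n a ha
  have h1 : (ev01 k).toRingHom (MvPolynomial.X 0 * MvPolynomial.X 1) =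
    LaurentPolynomial.T 1 := by simp [ev01]
  rw [h1, LaurentPolynomial.T_pow, mul_one] at this
  exact this

lemma e0_bijective : Function.Bijective (e0 k) := by
  constructor
  · rw [injective_iff_map_eq_zero]
    intro z hz
    obtain ⟨n, a, ha, rfl⟩ := Away.mk_surjective (gr 1 k) (X_mem k 1 0) z
    rw [e0_mk] at hz
    have := homog_eq_zero0 k _ a ha hz
    subst this
    apply HomogeneousLocalization.val_injective
    simp [Localization.mk_zero]
  · intro p
    induction p using Polynomial.induction_on' with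
    | add p q hp hq =>
      obtain ⟨a, rfl⟩ := hp
      obtain ⟨b, rfl⟩ := hq
      exact ⟨a + b, map_add _ _ _⟩
    | monomial n c =>
      refine ⟨Away.mk (gr 1 k) (X_mem k 1 0) n (MvPolynomial.C c * MvPolynomial.X 1 ^ n) ?_, ?_⟩
      · rw [smul_eq_mul, mul_one]
        have := (MvPolynomial.isHomogeneous_C (Fin 2) c).mul
          ((MvPolynomial.isHomogeneous_X k (1 : Fin 2)).pow n)
        simpa using this
      · rw [e0_mk]
        simp [ev0, Polynomial.C_mul_X_pow_eq_monomial]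

lemma e1_bijective : Function.Bijective (e1 k) := by
  constructor
  · rw [injective_iff_map_eq_zero]
    intro z hz
    obtain ⟨n, a, ha, rfl⟩ := Away.mk_surjective (gr 1 k) (X_mem k 1 1) z
    rw [e1_mk] at hz
    have := homog_eq_zero1 k _ a ha hz
    subst this
    apply HomogeneousLocalization.val_injective
    simp [Localization.mk_zero]
  · intro p
    induction p using Polynomial.induction_on' with
    | add p q hp hq =>
      obtain ⟨a, rfl⟩ := hp
      obtain ⟨b, rfl⟩ := hq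
      exact ⟨a + b, map_add _ _ _⟩
    | monomial n c =>
      refine ⟨Away.mk (gr 1 k) (X_mem k 1 1) n (MvPolynomial.C c * MvPolynomial.X 0 ^ n) ?_, ?_⟩
      · rw [smul_eq_mul, mul_one]
        have := (MvPolynomial.isHomogeneous_C (Fin 2) c).mul
          ((MvPolynomial.isHomogeneous_X k (0 : Fin 2)).pow n)
        simpa using this
      · rw [e1_mk]
        simp [ev1, Polynomial.C_mul_X_pow_eq_monomial]

lemma ev01_eq : ev01 k = (Polynomial.toLaurentAlg (R := k)).comp (ev0 k) := by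
  ext i
  fin_cases i
  · simp [ev01, ev0]
  · simp [ev01, ev0]

lemma e01_bijective : Function.Bijective (e01 k) := by
  constructor
  · rw [injective_iff_map_eq_zero]
    intro z hz
    obtain ⟨n, a, ha, rfl⟩ := Away.mk_surjective (gr 1 k)
      (SetLike.mul_mem_graded (X_mem k 1 0) (X_mem k 1 1)) z
    have h1 := e01_mk k n a ha
    rw [hz, zero_mul, ev01_eq, AlgHom.comp_apply] at h1
    have h2 : ev0 k a = 0 := by
      apply Polynomial.toLaurent_injective
      rw [map_zero]
      exact h1.symm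
    have := homog_eq_zero0 k _ a ha h2
    subst this
    apply HomogeneousLocalization.val_injective
    simp [Localization.mk_zero]
  · intro p
    induction p using LaurentPolynomial.induction_on' with
    | add p q hp hq =>
      obtain ⟨a, rfl⟩ := hp
      obtain ⟨b, rfl⟩ := hq
      exact ⟨a + b, map_add _ _ _⟩
    | C_mul_T n c =>
      obtain ⟨m, hm⟩ : ∃ m : ℕ, 0 ≤ (m : ℤ) + n ∧ 0 ≤ (m : ℤ) - n := ⟨n.natAbs, by omega, by omega⟩
      obtain ⟨i, hi⟩ := Int.eq_ofNat_of_zero_le hm.1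
      obtain ⟨j, hj⟩ := Int.eq_ofNat_of_zero_le hm.2
      have hij : j + i = m * 2 := by omega
      refine ⟨Away.mk (gr 1 k) (SetLike.mul_mem_graded (X_mem k 1 0) (X_mem k 1 1)) m
        (MvPolynomial.C c * (MvPolynomial.X 0 ^ j * MvPolynomial.X 1 ^ i)) ?_, ?_⟩
      · have h1 := (MvPolynomial.isHomogeneous_C (Fin 2) c).mul
          (((MvPolynomial.isHomogeneous_X k (0 : Fin 2)).pow j).mul
            ((MvPolynomial.isHomogeneous_X k (1 : Fin 2)).pow i))
        rw [one_mul, one_mul, zero_add, hij] at h1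
        exact h1
      · have hT : IsUnit (LaurentPolynomial.T m : LaurentPolynomial k) :=
          LaurentPolynomial.isUnit_T _
        apply hT.mul_right_cancel
        refine (e01_mk k m _ _).trans ?_
        simp only [ev01, map_mul, map_pow, MvPolynomial.aeval_X, MvPolynomial.aeval_C]
        simp only [Matrix.cons_val_zero, Matrix.cons_val_one, one_pow, one_mul,
          LaurentPolynomial.T_pow, mul_one]
        rw [mul_assoc, ← LaurentPolynomial.T_add, add_comm n, hi]
        rfl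

end P1

section PP

attribute [local instance] MvPolynomial.gradedAlgebra

variable (k : Type u) [Field k]

open Polynomial

lemma spec_isIso {R S : Type u} [CommRing R] [CommRing S] (e : R →+* S)
    (he : Function.Bijective e) : IsIso (Spec.map (CommRingCat.ofHom e)) := by
  have : IsIso (CommRingCat.ofHom e) := by
    rw [ConcreteCategory.isIso_iff_bijective]
    exact he
  infer_instance

/-- the chart `Spec k[X] ⟶ ℙ¹`, `X = X₁/X₀`. -/
noncomputable def c0 : Spec (.of k[X]) ⟶ PP 1 k :=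
  Spec.map (CommRingCat.ofHom (e0 k)) ≫
    Proj.awayι (gr 1 k) (MvPolynomial.X 0) (X_mem k 1 0) one_pos

/-- the chart `Spec k[X] ⟶ ℙ¹`, `X = X₀/X₁`. -/
noncomputable def c1 : Spec (.of k[X]) ⟶ PP 1 k :=
  Spec.map (CommRingCat.ofHom (e1 k)) ≫
    Proj.awayι (gr 1 k) (MvPolynomial.X 1) (X_mem k 1 1) one_pos

/-- the chart `Spec k[T;T⁻¹] ⟶ ℙ¹`. -/
noncomputable def c01 : Spec (.of (LaurentPolynomial k)) ⟶ PP 1 k :=
  Spec.map (CommRingCat.ofHom (e01 k)) ≫
    Proj.awayι (gr 1 k) (MvPolynomial.X 0 * MvPolynomial.X 1)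
      (SetLike.mul_mem_graded (X_mem k 1 0) (X_mem k 1 1)) (by norm_num)

instance : IsOpenImmersion (c0 k) := by
  have := spec_isIso (e0 k) (e0_bijective k)
  unfold c0
  exact inferInstance

instance : IsOpenImmersion (c1 k) := by
  have := spec_isIso (e1 k) (e1_bijective k)
  unfold c1
  exact inferInstance

instance : IsOpenImmersion (c01 k) := by
  have := spec_isIso (e01 k) (e01_bijective k)
  unfold c01
  exact inferInstance

lemma opensRange_c0 : (c0 k).opensRange = Proj.basicOpen (gr 1 k) (MvPolynomial.X 0) := by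
  have := spec_isIso (e0 k) (e0_bijective k)
  exact (Scheme.Hom.opensRange_comp_of_isIso _ _).trans (Proj.opensRange_awayι _ _ _ _)

lemma opensRange_c1 : (c1 k).opensRange = Proj.basicOpen (gr 1 k) (MvPolynomial.X 1) := by
  have := spec_isIso (e1 k) (e1_bijective k)
  exact (Scheme.Hom.opensRange_comp_of_isIso _ _).trans (Proj.opensRange_awayι _ _ _ _)

lemma opensRange_c01 : (c01 k).opensRange =
    Proj.basicOpen (gr 1 k) (MvPolynomial.X 0 * MvPolynomial.X 1) := by
  have := spec_isIso (e01 k) (e01_bijective k)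
  exact (Scheme.Hom.opensRange_comp_of_isIso _ _).trans (Proj.opensRange_awayι _ _ _ _)

/-- `X ↦ T` -/
noncomputable def φ0 : k[X] →+* LaurentPolynomial k := Polynomial.toLaurent

/-- `X ↦ T⁻¹` -/
noncomputable def φ1 : k[X] →+* LaurentPolynomial k :=
  (LaurentPolynomial.invert (R := k)).toRingHom.comp Polynomial.toLaurent

/-- first overlap map -/
noncomputable def pa : Spec (.of (LaurentPolynomial k)) ⟶ Spec (.of k[X]) :=
  Spec.map (CommRingCat.ofHom (φ0 k))

/-- second overlap map -/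
noncomputable def pb : Spec (.of (LaurentPolynomial k)) ⟶ Spec (.of k[X]) :=
  Spec.map (CommRingCat.ofHom (φ1 k))

lemma pa_c0 : pa k ≫ c0 k = c01 k := by
  have h : (φ0 k).comp (e0 k) = (e01 k).comp (awayMap (gr 1 k) (X_mem k 1 1) rfl) := by
    rw [e0, e01, comp_awayEval (gr 1 k) _ _ _ (X_mem k 1 0),
      awayEval_comp_awayMap (gr 1 k) _ (isUnit_ev01 k) (X_mem k 1 0) (X_mem k 1 1) rfl
        (by simp [ev01])]
    congr 1
    ext i
    · simp [φ0, ev0, ev01]
    · fin_cases i
      · simp [φ0, ev0, ev01]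
      · simp [φ0, ev0, ev01]
  rw [pa, c0, c01, ← Category.assoc, ← Spec.map_comp, ← CommRingCat.ofHom_comp, h,
    CommRingCat.ofHom_comp, Spec.map_comp, Category.assoc]
  rw [Proj.SpecMap_awayMap_awayι]

lemma pb_c1 : pb k ≫ c1 k = c01 k := by
  have h : (φ1 k).comp (e1 k) = (e01 k).comp (awayMap (gr 1 k) (X_mem k 1 0) (mul_comm _ _)) := by
    rw [e1, e01, comp_awayEval (gr 1 k) _ _ _ (X_mem k 1 1),
      awayEval_comp_awayMap (gr 1 k) _ (isUnit_ev01 k) (X_mem k 1 1) (X_mem k 1 0) (mul_comm _ _)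
        (by simpa [ev01] using LaurentPolynomial.isUnit_T 1)]
    apply awayEval_scale (v := LaurentPolynomial.T 1)
    · intro c
      simp [φ1, ev1, ev01]
    · intro i
      have hT : (LaurentPolynomial.T 1 * LaurentPolynomial.T (-1) : LaurentPolynomial k) = 1 := by
        rw [← LaurentPolynomial.T_add]; simp
      fin_cases i
      · simp [φ1, ev1, ev01, hT]
      · simp [φ1, ev1, ev01]
    · exact X_mem k 1 1
  rw [pb, c1, c01, ← Category.assoc, ← Spec.map_comp, ← CommRingCat.ofHom_comp, h,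
    CommRingCat.ofHom_comp, Spec.map_comp, Category.assoc]
  rw [Proj.SpecMap_awayMap_awayι]

instance : IsOpenImmersion (pa k) := by
  have : IsOpenImmersion (pa k ≫ c0 k) := by rw [pa_c0]; infer_instance
  exact IsOpenImmersion.of_comp (pa k) (c0 k)

instance : IsOpenImmersion (pb k) := by
  have : IsOpenImmersion (pb k ≫ c1 k) := by rw [pb_c1]; infer_instance
  exact IsOpenImmersion.of_comp (pb k) (c1 k)

lemma hab : pa k ≫ c0 k = pb k ≫ c1 k := by rw [pa_c0, pb_c1]

lemma hinter (x y : Spec (.of k[X])) (h : c0 k x = c1 k y) :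
    ∃ z, pa k z = x ∧ pb k z = y := by
  have h1 : c0 k x ∈ (c01 k).opensRange := by
    rw [opensRange_c01, Proj.basicOpen_mul, ← opensRange_c0, ← opensRange_c1]
    exact ⟨⟨x, rfl⟩, ⟨y, h.symm⟩⟩
  obtain ⟨z, hz⟩ := h1
  refine ⟨z, ?_, ?_⟩
  · apply (c0 k).isOpenEmbedding.injective
    rw [← Scheme.Hom.comp_apply, pa_c0, hz]
  · apply (c1 k).isOpenEmbedding.injective
    rw [← Scheme.Hom.comp_apply, pb_c1, hz, h]

lemma irrelevant_le (n : ℕ) : (HomogeneousIdeal.irrelevant (gr n k)).toIdeal ≤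
    Ideal.span (Set.range (MvPolynomial.X : Fin (n + 1) → MvPolynomial (Fin (n + 1)) k)) := by
  intro z hz
  have hz' : z ∈ HomogeneousIdeal.irrelevant (gr n k) := hz
  rw [HomogeneousIdeal.mem_irrelevant_iff, GradedRing.proj_apply] at hz'
  have hz0 : MvPolynomial.homogeneousComponent 0 z = 0 := by
    rw [← hz']
    exact (MvPolynomial.decomposition.decompose'_apply z 0).symm
  rw [MvPolynomial.homogeneousComponent_zero] at hz0
  have hc : MvPolynomial.coeff 0 z = 0 := by
    simpa using hz0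
  rw [← Set.image_univ, MvPolynomial.mem_ideal_span_X_image]
  intro m hm
  by_contra hcon
  push Not at hcon
  have hm0 : m = 0 := by
    ext i
    exact hcon i (Set.mem_univ i)
  rw [hm0, MvPolynomial.mem_support_iff] at hm
  exact hm hc

lemma PP_cover (n : ℕ) (p : PP n k) :
    ∃ i : Fin (n + 1), p ∈ Proj.basicOpen (gr n k) (MvPolynomial.X i) := by
  have h := Proj.iSup_basicOpen_eq_top (gr n k)
    (MvPolynomial.X : Fin (n + 1) → MvPolynomial (Fin (n + 1)) k) (irrelevant_le k n)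
  have hp : p ∈ (⊤ : (PP n k).Opens) := trivial
  rw [← h, TopologicalSpace.Opens.mem_iSup] at hp
  exact hp

lemma c_cover (p : PP 1 k) : p ∈ (c0 k).opensRange ∨ p ∈ (c1 k).opensRange := by
  rw [opensRange_c0, opensRange_c1]
  obtain ⟨i, hi⟩ := PP_cover k 1 p
  fin_cases i
  · exact Or.inl hi
  · exact Or.inr hi

end PP

end Pool.Agent.helper52
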