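import Mathlib
import Pool.Agent.helper52.PProj
import Pool.Agent.helper52.Glue

set_option autoImplicit false
set_option linter.unusedSectionVars false

open AlgebraicGeometry CategoryTheory Limits Polynomial

universe u

namespace Pool.Agent.helper52

section Quad

variable {A B : Type u} [CommRing A] [CommRing B]

/-- The polynomial `Y² - F`. -/
noncomputable def quadPoly (F : A) : A[X] := X ^ 2 - C F

/-- The ring `A[Y]/(Y² - F)`. -/
abbrev QR (F : A) : Type u := AdjoinRoot (quadPoly F)

lemma quadPoly_monic (F : A) : (quadPoly F).Monic := monic_X_pow_sub_C F two_ne_zero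

lemma quadPoly_natDegree [Nontrivial A] (F : A) : (quadPoly F).natDegree = 2 :=
  natDegree_X_pow_sub_C

lemma root_sq (F : A) : AdjoinRoot.root (quadPoly F) ^ 2 = AdjoinRoot.of (quadPoly F) F := by
  have := AdjoinRoot.eval₂_root (quadPoly F)
  rw [quadPoly, eval₂_sub, eval₂_X_pow, eval₂_C, ← quadPoly] at this
  linear_combination this

/-- lifting -/
noncomputable def QR.lift {F : A} (i : A →+* B) (y : B) (h : y ^ 2 = i F) : QR F →+* B :=
  AdjoinRoot.lift i y (by rw [quadPoly, eval₂_sub, eval₂_X_pow, eval₂_C, h, sub_self])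

@[simp] lemma QR.lift_of {F : A} (i : A →+* B) (y : B) (h : y ^ 2 = i F) (a : A) :
    QR.lift i y h (AdjoinRoot.of _ a) = i a := AdjoinRoot.lift_of _

@[simp] lemma QR.lift_root {F : A} (i : A →+* B) (y : B) (h : y ^ 2 = i F) :
    QR.lift i y h (AdjoinRoot.root _) = y := AdjoinRoot.lift_root _

lemma QR.lift_comp_of {F : A} (i : A →+* B) (y : B) (h : y ^ 2 = i F) :
    (QR.lift i y h).comp (AdjoinRoot.of _) = i := AdjoinRoot.lift_comp_of _

lemma QR.hom_ext {F : A} {g g' : QR F →+* B}
    (h1 : g.comp (AdjoinRoot.of _) = g'.comp (AdjoinRoot.of _))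
    (h2 : g (AdjoinRoot.root _) = g' (AdjoinRoot.root _)) : g = g' :=
  AdjoinRoot.ringHom_ext h1 h2

/-- The map `A[Y]/(Y² - F) → B[Y]/(Y² - G)`, `Y ↦ w Y` where `w² G = φ F`. -/
noncomputable def QR.map (φ : A →+* B) (F : A) (G w : B) (h : w ^ 2 * G = φ F) :
    QR F →+* QR G :=
  QR.lift ((AdjoinRoot.of (quadPoly G)).comp φ)
    (AdjoinRoot.of (quadPoly G) w * AdjoinRoot.root (quadPoly G)) (by
      rw [mul_pow, root_sq, ← map_pow, ← map_mul, h]; rfl)

lemma QR.desc_aux {φ : A →+* B} {F : A} {G w v : B} (h : w ^ 2 * G = φ F) (hvw : v * w = 1)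
    (s : PushoutCocone (CommRingCat.ofHom (AdjoinRoot.of (quadPoly F))) (CommRingCat.ofHom φ)) :
    (s.inr.hom v * s.inl.hom (AdjoinRoot.root (quadPoly F))) ^ 2 = s.inr.hom G := by
  have hs : s.inl.hom (AdjoinRoot.of (quadPoly F) F) = s.inr.hom (φ F) :=
    congrArg (fun t => t.hom F) s.condition
  rw [mul_pow, ← map_pow, ← map_pow, root_sq, hs, ← map_mul, ← h]
  congr 1
  linear_combination (v * w + 1) * G * hvw

lemma QR.isPushout (φ : A →+* B) (F : A) (G w v : B) (h : w ^ 2 * G = φ F) (hvw : v * w = 1) :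
    IsPushout (CommRingCat.ofHom (AdjoinRoot.of (quadPoly F))) (CommRingCat.ofHom φ)
      (CommRingCat.ofHom (QR.map φ F G w h)) (CommRingCat.ofHom (AdjoinRoot.of (quadPoly G))) where
  w := by
    ext a
    simp [QR.map]
  isColimit' := ⟨by
    refine PushoutCocone.IsColimit.mk _ (fun s => CommRingCat.ofHom (QR.lift s.inr.hom
      (s.inr.hom v * s.inl.hom (AdjoinRoot.root _)) (QR.desc_aux h hvw s))) ?_ ?_ ?_
    · intro s
      apply CommRingCat.hom_ext
      have : (QR.lift s.inr.hom (s.inr.hom v * s.inl.hom (AdjoinRoot.root _))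
          (QR.desc_aux h hvw s)).comp (QR.map φ F G w h) = s.inl.hom := by
        apply QR.hom_ext
        · ext a
          have hs : s.inl.hom (AdjoinRoot.of (quadPoly F) a) = s.inr.hom (φ a) :=
            congrArg (fun t => t.hom a) s.condition
          simp [QR.map, hs]
        · simp only [QR.map, RingHom.coe_comp, Function.comp_apply, QR.lift_root, map_mul,
            QR.lift_of]
          rw [← mul_assoc, ← map_mul, mul_comm w v, hvw, map_one, one_mul]
      exact this
    · intro s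
      apply CommRingCat.hom_ext
      exact QR.lift_comp_of _ _ (QR.desc_aux h hvw s)
    · intro s m h1 h2
      apply CommRingCat.hom_ext
      have : m.hom = (QR.lift s.inr.hom (s.inr.hom v * s.inl.hom (AdjoinRoot.root _))
          (QR.desc_aux h hvw s)) := by
        apply QR.hom_ext
        · rw [QR.lift_comp_of, ← h2]; rfl
        · rw [QR.lift_root]
          have e1 : s.inl.hom (AdjoinRoot.root _) =
              m.hom (AdjoinRoot.of (quadPoly G) w * AdjoinRoot.root (quadPoly G)) := by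
            rw [← h1]; simp [QR.map]
          have e2 : s.inr.hom v = m.hom (AdjoinRoot.of (quadPoly G) v) := by
            rw [← h2]; rfl
          rw [e1, e2, ← map_mul, ← mul_assoc, ← map_mul, hvw, map_one, one_mul]
      exact this⟩

end Quad

section HC

variable {k : Type u} [Field k]

/-- first overlap map of the curve -/
noncomputable def qa (f : k[X]) : Spec (.of (QR (φ0 k f))) ⟶ Spec (.of (QR f)) :=
  Spec.map (CommRingCat.ofHom (QR.map (φ0 k) f (φ0 k f) 1 (by simp)))

lemma rev_eq {f : k[X]} {m : ℕ} (hf : f.natDegree = 2 * m) :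
    (LaurentPolynomial.T (-(m : ℤ)) : LaurentPolynomial k) ^ 2 * φ0 k f = φ1 k f.reverse := by
  simp only [φ0, φ1, RingHom.coe_comp, Function.comp_apply, LaurentPolynomial.toLaurent_reverse]
  rw [hf]
  simp only [RingEquiv.toRingHom_eq_coe,
    AlgEquiv.toRingEquiv_toRingHom, RingHom.coe_coe, map_mul, LaurentPolynomial.invert_T]
  have : LaurentPolynomial.invert (LaurentPolynomial.invert (Polynomial.toLaurent f)) =
    Polynomial.toLaurent f := LaurentPolynomial.involutive_invert _
  rw [this, LaurentPolynomial.T_pow, mul_comm]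
  congr 2
  push_cast
  ring

/-- second overlap map of the curve -/
noncomputable def qb (f : k[X]) (m : ℕ) (hf : f.natDegree = 2 * m) :
    Spec (.of (QR (φ0 k f))) ⟶ Spec (.of (QR f.reverse)) :=
  Spec.map (CommRingCat.ofHom (QR.map (φ1 k) f.reverse (φ0 k f)
    (LaurentPolynomial.T (-(m : ℤ))) (rev_eq hf)))

/-- the double cover of the affine line -/
noncomputable def nn {A : Type u} [CommRing A] (F : A) : Spec (.of (QR F)) ⟶ Spec (.of A) :=
  Spec.map (CommRingCat.ofHom (AdjoinRoot.of (quadPoly F)))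

lemma pull0 (f : k[X]) : IsPullback (nn (φ0 k f)) (qa f) (pa k) (nn f) :=
  (isPullback_SpecMap_of_isPushout _ _ _ _
    (QR.isPushout (φ0 k) f (φ0 k f) 1 1 (by simp) (by simp))).flip

lemma pull1 (f : k[X]) (m : ℕ) (hf : f.natDegree = 2 * m) :
    IsPullback (nn (φ0 k f)) (qb f m hf) (pb k) (nn f.reverse) :=
  (isPullback_SpecMap_of_isPushout _ _ _ _
    (QR.isPushout (φ1 k) f.reverse (φ0 k f) (LaurentPolynomial.T (-(m : ℤ)))
      (LaurentPolynomial.T (m : ℤ)) (rev_eq hf) (by
        rw [← LaurentPolynomial.T_add]; simp))).flip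

instance (f : k[X]) : IsOpenImmersion (qa f) :=
  MorphismProperty.of_isPullback (pull0 f) inferInstance

instance (f : k[X]) (m : ℕ) (hf : f.natDegree = 2 * m) : IsOpenImmersion (qb f m hf) :=
  MorphismProperty.of_isPullback (pull1 f m hf) inferInstance

/-- The hyperelliptic curve `y² = f(x)` where `deg f = 2m`: the gluing of
`Spec k[x,y]/(y² - f(x))` and `Spec k[s,w]/(w² - s^{2m} f(1/s))` along `s = 1/x`, `w = y/x^m`. -/
noncomputable def HC (f : k[X]) (m : ℕ) (hf : f.natDegree = 2 * m) : Scheme.{u} :=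
  glue2 (qa f) (qb f m hf)

variable (f : k[X]) (m : ℕ) (hf : f.natDegree = 2 * m)

/-- The projection `(x, y) ↦ x` to the projective line. -/
noncomputable def HC.π : HC f m hf ⟶ PP 1 k :=
  relDesc (qa f) (qb f m hf) (c0 k) (c1 k) (pa k) (pb k) (hab k) (nn f) (nn f.reverse)
    (nn (φ0 k f)) (pull0 f) (pull1 f m hf)

/-- first chart -/
noncomputable def HC.ι₀ : Spec (.of (QR f)) ⟶ HC f m hf := glue2.ι₀ _ _
/-- second chart -/
noncomputable def HC.ι₁ : Spec (.of (QR f.reverse)) ⟶ HC f m hf := glue2.ι₁ _ _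

instance : IsOpenImmersion (HC.ι₀ f m hf) := inferInstanceAs (IsOpenImmersion (glue2.ι₀ _ _))
instance : IsOpenImmersion (HC.ι₁ f m hf) := inferInstanceAs (IsOpenImmersion (glue2.ι₁ _ _))

lemma HC.pull0 : IsPullback (nn f) (HC.ι₀ f m hf) (c0 k) (HC.π f m hf) :=
  relDesc_isPullback₀ _ _ _ _ _ _ _ (hinter k) _ _ _ _ _

lemma HC.pull1 : IsPullback (nn f.reverse) (HC.ι₁ f m hf) (c1 k) (HC.π f m hf) :=
  relDesc_isPullback₁ _ _ _ _ _ _ _ (hinter k) _ _ _ _ _

/-- The structure morphism of the curve. -/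
noncomputable def HC.toSpec : HC f m hf ⟶ Spec (.of k) := HC.π f m hf ≫ PP.toSpec 1 k

end HC

end Pool.Agent.helper52
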