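import Mathlib
import Pool.Agent.helper52.Curve

set_option autoImplicit false
set_option linter.unusedSectionVars false

open AlgebraicGeometry CategoryTheory Limits Polynomial HomogeneousLocalization

universe u

namespace Pool.Agent.helper52

section Cover

variable (k : Type u) [Field k]

/-- the open cover of the projective line by the two standard charts -/
noncomputable def cP : (PP 1 k).OpenCover :=
  Scheme.Cover.mkOfCovers Bool (fun _ => Spec (.of k[X]))
    (fun j => match j with
      | false => c0 k
      | true => c1 k)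
    (by
      intro x
      rcases c_cover k x with ⟨y, hy⟩ | ⟨y, hy⟩
      · exact ⟨false, y, hy⟩
      · exact ⟨true, y, hy⟩)
    (by
      intro j
      match j with
      | false => exact inferInstanceAs (IsOpenImmersion (c0 k))
      | true => exact inferInstanceAs (IsOpenImmersion (c1 k)))

end Cover

section HC

variable {k : Type u} [Field k] (f : k[X]) (m : ℕ) (hf : f.natDegree = 2 * m)

/-- A property of morphisms which is local on the target can be checked on the two charts. -/
lemma HC.π_prop (P : MorphismProperty Scheme.{u}) [IsZariskiLocalAtTarget P]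
    (h0 : P (nn f)) (h1 : P (nn f.reverse)) : P (HC.π f m hf) := by
  apply IsZariskiLocalAtTarget.of_openCover (cP k)
  intro j
  match j with
  | false =>
    have e := (HC.pull0 f m hf).flip
    change P (pullback.snd (HC.π f m hf) (c0 k))
    have : pullback.snd (HC.π f m hf) (c0 k) = e.isoPullback.inv ≫ nn f := by
      rw [Iso.eq_inv_comp]
      exact e.isoPullback_hom_snd
    rw [this]
    exact (P.cancel_left_of_respectsIso _ _).mpr h0
  | true =>
    have e := (HC.pull1 f m hf).flip
    change P (pullback.snd (HC.π f m hf) (c1 k))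
    have : pullback.snd (HC.π f m hf) (c1 k) = e.isoPullback.inv ≫ nn f.reverse := by
      rw [Iso.eq_inv_comp]
      exact e.isoPullback_hom_snd
    rw [this]
    exact (P.cancel_left_of_respectsIso _ _).mpr h1

lemma nn_finite {A : Type u} [CommRing A] (F : A) : IsFinite (nn F) := by
  rw [nn, IsFinite.SpecMap_iff]
  have : Module.Finite A (QR F) := (quadPoly_monic F).finite_adjoinRoot
  exact RingHom.finite_algebraMap.mpr this

lemma nn_flat {A : Type u} [CommRing A] (F : A) : Flat (nn F) := by
  rw [nn, Flat.SpecMap_iff]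
  have : Module.Free A (QR F) := (quadPoly_monic F).free_adjoinRoot
  exact RingHom.flat_algebraMap_iff.mpr inferInstance

instance : IsFinite (HC.π f m hf) :=
  HC.π_prop f m hf (P := (@IsFinite : MorphismProperty Scheme.{u})) (nn_finite f) (nn_finite _)

instance : Flat (HC.π f m hf) :=
  HC.π_prop f m hf (P := (@Flat : MorphismProperty Scheme.{u})) (nn_flat f) (nn_flat _)

lemma nn_finrank {A : Type u} [CommRing A] [IsDomain A] (F : A) (x : Spec (.of A)) :
    (nn F).finrank x = 2 := by
  have h1 : Module.Finite A (QR F) := (quadPoly_monic F).finite_adjoinRoot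
  have h2 : Module.Free A (QR F) := (quadPoly_monic F).free_adjoinRoot
  have : Module.Flat A (QR F) := inferInstance
  have h3 := Scheme.Hom.finrank_SpecMap_algebraMap A (QR F) x
  refine h3.trans ?_
  rw [Module.rankAtStalk_eq_finrank_of_free]
  have := (AdjoinRoot.powerBasis' (quadPoly_monic F)).finrank
  rw [AdjoinRoot.powerBasis'_dim, quadPoly_natDegree] at this
  exact this

lemma HC.π_finrank (y : PP 1 k) : (HC.π f m hf).finrank y = 2 := by
  rcases c_cover k y with ⟨x, rfl⟩ | ⟨x, rfl⟩
  · rw [← Scheme.Hom.finrank_of_isPullback _ _ _ _ (HC.pull0 f m hf).flip, nn_finrank]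
  · rw [← Scheme.Hom.finrank_of_isPullback _ _ _ _ (HC.pull1 f m hf).flip, nn_finrank]

end HC

attribute [local instance] MvPolynomial.gradedAlgebra

section
variable (n : ℕ) (k : Type u) [Field k]

lemma gr_zero_bijective : Function.Bijective (algebraMap k (gr n k 0)) := by
  constructor
  · intro a b hab
    have := congrArg Subtype.val hab
    exact MvPolynomial.C_injective (Fin (n+1)) k this
  · rintro ⟨x, hx⟩
    have hx' : x.IsHomogeneous 0 := hx
    rw [← MvPolynomial.totalDegree_zero_iff_isHomogeneous, MvPolynomial.totalDegree_eq_zero_iff_eq_C] at hx'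
    exact ⟨_, Subtype.ext hx'.symm⟩

instance : IsIso (Spec.map (CommRingCat.ofHom (algebraMap k (gr n k 0)))) :=
  spec_isIso _ (gr_zero_bijective n k)

instance : Algebra.FiniteType (gr n k 0) (MvPolynomial (Fin (n + 1)) k) := by
  have : @IsScalarTower k (gr n k 0) (MvPolynomial (Fin (n + 1)) k) Algebra.toSMul
      Algebra.toSMul Algebra.toSMul := by
    apply IsScalarTower.of_algebraMap_eq
    intro x
    rfl
  exact Algebra.FiniteType.of_restrictScalars_finiteType k (gr n k 0) _

instance : IsProper (PP.toSpec n k) := by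
  unfold PP.toSpec
  infer_instance

end

section HC
variable {k : Type u} [Field k] (f : k[X]) (m : ℕ) (hf : f.natDegree = 2 * m)

instance : IsProper (HC.toSpec f m hf) := by
  unfold HC.toSpec
  infer_instance

lemma fromZero_eq (n : ℕ) (x : MvPolynomial (Fin (n + 1)) k) {d : ℕ} (hx : x ∈ gr n k d) (a : k) :
    fromZeroRingHom (gr n k) (Submonoid.powers x) (algebraMap k (gr n k 0) a) =
    Away.mk (gr n k) hx 0 (MvPolynomial.C a)
      (by rw [zero_smul]; exact MvPolynomial.isHomogeneous_C (Fin (n + 1)) a) := by
  apply HomogeneousLocalization.val_injective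
  rw [Away.val_mk]
  change Localization.mk (MvPolynomial.C a) (1 : Submonoid.powers x) = _
  congr 1

lemma c0_toSpec : c0 k ≫ PP.toSpec 1 k = Spec.map (CommRingCat.ofHom (algebraMap k k[X])) := by
  rw [c0, PP.toSpec, Category.assoc, Proj.awayι_toSpecZero_assoc, ← Spec.map_comp, ← Spec.map_comp,
    ← CommRingCat.ofHom_comp, ← CommRingCat.ofHom_comp]
  congr 2
  ext a : 1
  rw [RingHom.comp_apply, RingHom.comp_apply, fromZero_eq 1 _ (X_mem k 1 0), e0_mk]
  simp [ev0]

lemma c1_toSpec : c1 k ≫ PP.toSpec 1 k = Spec.map (CommRingCat.ofHom (algebraMap k k[X])) := by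
  rw [c1, PP.toSpec, Category.assoc, Proj.awayι_toSpecZero_assoc, ← Spec.map_comp, ← Spec.map_comp,
    ← CommRingCat.ofHom_comp, ← CommRingCat.ofHom_comp]
  congr 2
  ext a : 1
  rw [RingHom.comp_apply, RingHom.comp_apply, fromZero_eq 1 _ (X_mem k 1 1), e1_mk]
  simp [ev1]

lemma ι₀_toSpec : HC.ι₀ f m hf ≫ HC.toSpec f m hf =
    Spec.map (CommRingCat.ofHom (algebraMap k (QR f))) := by
  rw [HC.toSpec, ← Category.assoc, ← (HC.pull0 f m hf).w, Category.assoc, c0_toSpec, nn,
    ← Spec.map_comp, ← CommRingCat.ofHom_comp]
  rfl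

lemma ι₁_toSpec : HC.ι₁ f m hf ≫ HC.toSpec f m hf =
    Spec.map (CommRingCat.ofHom (algebraMap k (QR f.reverse))) := by
  rw [HC.toSpec, ← Category.assoc, ← (HC.pull1 f m hf).w, Category.assoc, c1_toSpec, nn,
    ← Spec.map_comp, ← CommRingCat.ofHom_comp]
  rfl

end HC

end Pool.Agent.helper52
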