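import Mathlib
import Pool.Agent.helper52.Props

set_option autoImplicit false
set_option linter.unusedSectionVars false

open AlgebraicGeometry CategoryTheory Limits Polynomial HomogeneousLocalization

universe u

namespace Pool.Agent.helper52

section Smooth
variable {k : Type u} [Field k] (f : k[X])

/-- the surjection from the polynomial ring in two variables -/
noncomputable def QR.surj : MvPolynomial (Fin 2) k →ₐ[k] QR f :=
  ((AdjoinRoot.mkₐ (quadPoly f)).restrictScalars k).comp
    (Bivariate.equivMvPolynomial k).symm.toAlgHom

lemma QR.surj_surjective : Function.Surjective (QR.surj f) :=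
  (AdjoinRoot.mk_surjective).comp (Bivariate.equivMvPolynomial k).symm.surjective

lemma QR.surj_equiv (p : k[X][X]) : QR.surj f (Bivariate.equivMvPolynomial k p) =
    AdjoinRoot.mk (quadPoly f) p := by
  simp [QR.surj]

/-- the presentation of the coordinate ring -/
noncomputable def QR.pres : Algebra.Presentation k (QR f) (Fin 2) Unit where
  __ := Algebra.Generators.ofAlgHom (QR.surj f) (QR.surj_surjective f)
  relation := fun _ => Bivariate.equivMvPolynomial k (quadPoly f)
  span_range_relation_eq_ker := by
    rw [Algebra.Generators.ker_ofAlgHom]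
    ext x
    obtain ⟨p, rfl⟩ := (Bivariate.equivMvPolynomial k).surjective x
    rw [Set.range_const, Ideal.mem_span_singleton]
    change _ ↔ QR.surj f _ = 0
    rw [QR.surj_equiv, AdjoinRoot.mk_eq_zero]
    constructor
    · rintro ⟨c, hc⟩
      refine ⟨(Bivariate.equivMvPolynomial k).symm c, ?_⟩
      apply (Bivariate.equivMvPolynomial k).injective
      rw [map_mul, hc, AlgEquiv.apply_symm_apply]
    · rintro ⟨c, hc⟩
      exact ⟨Bivariate.equivMvPolynomial k c, by rw [hc, map_mul]⟩

/-- the presubmersive presentation of the coordinate ring, choosing a variable -/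
noncomputable def QR.pre (i : Fin 2) : Algebra.PreSubmersivePresentation k (QR f) (Fin 2) Unit where
  __ := QR.pres f
  map := fun _ => i
  map_inj := fun _ _ _ => rfl

lemma QR.pre_jacobian (i : Fin 2) : (QR.pre f i).jacobian =
    QR.surj f (MvPolynomial.pderiv i (Bivariate.equivMvPolynomial k (quadPoly f))) := by
  rw [Algebra.PreSubmersivePresentation.jacobian_eq_jacobiMatrix_det]
  rw [Matrix.det_unique, Algebra.PreSubmersivePresentation.jacobiMatrix_apply]
  rw [Algebra.Generators.algebraMap_apply]
  change MvPolynomial.aeval (QR.surj f ∘ MvPolynomial.X) _ = _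
  have : MvPolynomial.aeval (QR.surj f ∘ MvPolynomial.X) = QR.surj f := by
    ext; simp
  rw [this]
  rfl

lemma QR.pre_jacobian_one : (QR.pre f 1).jacobian = 2 * AdjoinRoot.root (quadPoly f) := by
  rw [QR.pre_jacobian, Bivariate.pderiv_one_equivMvPolynomial, QR.surj_equiv]
  have : derivative (quadPoly f) = 2 * X := by
    rw [quadPoly, derivative_sub, derivative_C, derivative_X_pow]
    simp only [Nat.cast_ofNat, Nat.add_one_sub_one, pow_one, sub_zero, mul_eq_mul_right_iff,
      X_ne_zero, or_false]
    exact map_ofNat C 2
  rw [this, map_mul, map_ofNat, AdjoinRoot.mk_X]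

lemma QR.pre_jacobian_zero : (QR.pre f 0).jacobian =
    - AdjoinRoot.of (quadPoly f) (derivative f) := by
  rw [QR.pre_jacobian]
  have : MvPolynomial.pderiv 0 (Bivariate.equivMvPolynomial k (quadPoly f)) =
      - Bivariate.equivMvPolynomial k (C (derivative f)) := by
    rw [quadPoly, map_sub, map_pow, Bivariate.equivMvPolynomial_X, map_sub]
    have h : ∀ g : k[X], MvPolynomial.pderiv 0 (Bivariate.equivMvPolynomial k (C g)) =
        Bivariate.equivMvPolynomial k (C (derivative g)) := by
      intro g
      induction g using Polynomial.induction_on' with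
      | add p q hp hq => simp [hp, hq]
      | monomial n a =>
        rw [← Polynomial.C_mul_X_pow_eq_monomial, derivative_mul, derivative_C, zero_mul, zero_add,
          derivative_X_pow]
        simp
    rw [h]
    simp
  rw [this, map_neg, QR.surj_equiv]
  rfl

/-- the submersive presentation of a localization -/
noncomputable def QR.sub (i : Fin 2) (r : QR f) (hr : (QR.pre f i).jacobian ∣ r) :
    Algebra.SubmersivePresentation k (Localization.Away r) (Unit ⊕ Fin 2) (Unit ⊕ Unit) where
  __ := (Algebra.PreSubmersivePresentation.localizationAway (Localization.Away r) r).comp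
    (QR.pre f i)
  jacobian_isUnit := by
    rw [Algebra.PreSubmersivePresentation.comp_jacobian_eq_jacobian_smul_jacobian,
      Algebra.PreSubmersivePresentation.localizationAway_jacobian, Algebra.smul_def]
    have h : IsUnit (algebraMap (QR f) (Localization.Away r) r) :=
      IsLocalization.Away.algebraMap_isUnit r
    obtain ⟨c, hc⟩ := hr
    refine IsUnit.mul ?_ h
    have e : algebraMap (QR f) (Localization.Away r) r =
      algebraMap (QR f) (Localization.Away r) (QR.pre f i).jacobian *
        algebraMap (QR f) (Localization.Away r) c := by rw [← map_mul, ← hc]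
    rw [e] at h
    exact isUnit_of_mul_isUnit_left h

lemma QR.standardSmooth (i : Fin 2) (r : QR f) (hr : (QR.pre f i).jacobian ∣ r) :
    Algebra.IsStandardSmoothOfRelativeDimension 1 k (Localization.Away r) := by
  apply (QR.sub f i r hr).isStandardSmoothOfRelativeDimension
  rw [Algebra.Presentation.dimension]
  simp

lemma QR.locally_smooth (h2 : (2 : k) ≠ 0) (hsep : IsCoprime f (derivative f)) :
    RingHom.Locally (RingHom.IsStandardSmoothOfRelativeDimension 1) (algebraMap k (QR f)) := by
  refine ⟨{AdjoinRoot.root (quadPoly f), AdjoinRoot.of (quadPoly f) (derivative f)}, ?_, ?_⟩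
  · obtain ⟨a, b, hab⟩ := hsep
    rw [Ideal.eq_top_iff_one]
    have : (1 : QR f) = AdjoinRoot.of _ a * AdjoinRoot.root (quadPoly f) * AdjoinRoot.root _ +
        AdjoinRoot.of _ b * AdjoinRoot.of (quadPoly f) (derivative f) := by
      rw [mul_assoc, ← sq, root_sq, ← map_mul, ← map_mul, ← map_add, hab, map_one]
    rw [this]
    exact add_mem (Ideal.mul_mem_left _ _ (Ideal.subset_span (by simp)))
      (Ideal.mul_mem_left _ _ (Ideal.subset_span (by simp)))
  · intro r hr
    rw [← IsScalarTower.algebraMap_eq, RingHom.isStandardSmoothOfRelativeDimension_algebraMap]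
    rcases hr with rfl | hr
    · apply QR.standardSmooth f 1
      rw [QR.pre_jacobian_one]
      refine ⟨AdjoinRoot.of _ (C (1 / 2)), ?_⟩
      have : (2 : QR f) = AdjoinRoot.of _ (C 2) := by
        rw [map_ofNat, map_ofNat]
      rw [this, mul_comm, ← mul_assoc, ← map_mul, ← C_mul]
      rw [one_div, inv_mul_cancel₀ h2]
      simp
    · rw [Set.mem_singleton_iff] at hr
      subst hr
      apply QR.standardSmooth f 0
      rw [QR.pre_jacobian_zero]
      exact ⟨-1, by ring⟩

end Smooth

section Global
variable {k : Type u} [Field k] (f : k[X]) (m : ℕ) (hf : f.natDegree = 2 * m)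

/-- the open cover of the curve by the two charts -/
noncomputable def HC.cov : (HC f m hf).OpenCover :=
  Scheme.Cover.mkOfCovers Bool
    (fun j => match j with
      | false => Spec (.of (QR f))
      | true => Spec (.of (QR f.reverse)))
    (fun j => match j with
      | false => HC.ι₀ f m hf
      | true => HC.ι₁ f m hf)
    (by
      intro x
      rcases glue2.cover (qa f) (qb f m hf) x with ⟨y, hy⟩ | ⟨y, hy⟩
      · exact ⟨false, y, hy⟩
      · exact ⟨true, y, hy⟩)
    (by
      intro j
      match j with
      | false => exact inferInstanceAs (IsOpenImmersion (HC.ι₀ f m hf))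
      | true => exact inferInstanceAs (IsOpenImmersion (HC.ι₁ f m hf)))

lemma HC.smooth (h2 : (2 : k) ≠ 0) (hs : f.Separable) (hs' : f.reverse.Separable) :
    SmoothOfRelativeDimension 1 (HC.toSpec f m hf) := by
  rw [IsZariskiLocalAtSource.iff_of_openCover (P := @SmoothOfRelativeDimension 1) (HC.cov f m hf)]
  intro j
  match j with
  | false =>
    change SmoothOfRelativeDimension 1 (HC.ι₀ f m hf ≫ HC.toSpec f m hf)
    rw [ι₀_toSpec, HasRingHomProperty.Spec_iff (P := @SmoothOfRelativeDimension 1)]
    exact QR.locally_smooth f h2 hs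
  | true =>
    change SmoothOfRelativeDimension 1 (HC.ι₁ f m hf ≫ HC.toSpec f m hf)
    rw [ι₁_toSpec, HasRingHomProperty.Spec_iff (P := @SmoothOfRelativeDimension 1)]
    exact QR.locally_smooth f.reverse h2 hs'

end Global

end Pool.Agent.helper52
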