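import Mathlib
import Pool.Agent.helper52.Smooth

set_option autoImplicit false
set_option linter.unusedSectionVars false

open AlgebraicGeometry CategoryTheory Limits Polynomial HomogeneousLocalization

universe u

namespace Pool.Agent.helper52

section Top

lemma irreducibleSpace_of_two {X : Type u} [TopologicalSpace X] {S T : Set X}
    (hT : IsOpen T) (hS : IsOpen S) (hSi : IsIrreducible S) (hTi : IsIrreducible T)
    (hU : S ∪ T = Set.univ) (hI : (S ∩ T).Nonempty) : IrreducibleSpace X := by
  have h1 : S ⊆ closure (S ∩ T) :=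
    subset_closure_inter_of_isPreirreducible_of_isOpen hSi.2 hT hI
  have h2 : T ⊆ closure (S ∩ T) := by
    rw [Set.inter_comm]
    exact subset_closure_inter_of_isPreirreducible_of_isOpen hTi.2 hS (by rwa [Set.inter_comm])
  have h3 : IsIrreducible (S ∩ T) :=
    ⟨hI, hSi.2.open_subset (hS.inter hT) Set.inter_subset_left⟩
  have h4 : closure (S ∩ T) = Set.univ := by
    rw [Set.eq_univ_iff_forall]
    intro x
    have hx : x ∈ S ∪ T := by rw [hU]; trivial
    exact hx.elim (fun h => h1 h) (fun h => h2 h)
  have h5 : IsIrreducible (Set.univ : Set X) := by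
    rw [← h4]; exact h3.closure
  exact (irreducibleSpace_def X).mpr h5

end Top

section Dom

variable {K : Type u} [Field K]

lemma not_sq_of_separable (G : K[X]) (hs : G.Separable) (hd : G.natDegree ≠ 0) (a : K[X]) :
    a ^ 2 ≠ G := by
  intro h
  have hu : IsUnit a := by
    obtain ⟨u, v, huv⟩ := hs
    apply IsUnit.of_mul_eq_one (u * a + v * (2 * derivative a))
    rw [← h, derivative_pow] at huv
    simp only [Nat.cast_ofNat, Nat.add_one_sub_one, pow_one] at huv
    have h2 : (C (2 : K) : K[X]) = 2 := map_ofNat C 2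
    rw [h2] at huv
    linear_combination huv
  apply hd
  rw [← h]
  exact natDegree_eq_zero_of_isUnit (hu.pow 2)

lemma QR.isDomain (G : K[X]) (hs : G.Separable) (hd : G.natDegree ≠ 0) : IsDomain (QR G) := by
  have h1 : Irreducible (quadPoly G) := by
    rw [Polynomial.Monic.irreducible_iff_roots_eq_zero_of_degree_le_three (quadPoly_monic G)
      (by rw [quadPoly_natDegree]) (by rw [quadPoly_natDegree]; norm_num)]
    rw [Multiset.eq_zero_iff_forall_notMem]
    intro a ha
    rw [mem_roots (quadPoly_monic G).ne_zero, IsRoot, quadPoly] at ha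
    simp only [eval_sub, eval_pow, eval_X, eval_C] at ha
    exact not_sq_of_separable G hs hd a (sub_eq_zero.mp ha)
  exact AdjoinRoot.isDomain_of_prime (UniqueFactorizationMonoid.irreducible_iff_prime.mp h1)

end Dom

section BC

attribute [local instance] Polynomial.algebra

variable {k : Type u} [Field k] (K : Type u) [Field K] [Algebra k K] (f : k[X])

lemma QR.baseChange_isPushout : IsPushout (CommRingCat.ofHom (algebraMap k (QR f)))
    (CommRingCat.ofHom (algebraMap k K))
    (CommRingCat.ofHom (QR.map (Polynomial.mapRingHom (algebraMap k K)) f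
      (f.map (algebraMap k K)) 1 (by simp)))
    (CommRingCat.ofHom (algebraMap K (QR (f.map (algebraMap k K))))) := by
  have h1 := (CommRingCat.isPushout_of_isPushout k K k[X] K[X]).flip
  have h2 := QR.isPushout (Polynomial.mapRingHom (algebraMap k K)) f
      (f.map (algebraMap k K)) 1 1 (by simp) (by simp)
  exact h1.paste_horiz h2

lemma chart_integral {X Y : Scheme.{u}} (G : k[X]) (hs : G.Separable) (hd : G.natDegree ≠ 0)
    (j : Spec (.of (QR G)) ⟶ X) (p : X ⟶ Spec (.of k))
    (hj : j ≫ p = Spec.map (CommRingCat.ofHom (algebraMap k (QR G))))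
    (fst : Y ⟶ X) (snd : Y ⟶ Spec (.of K))
    (h : IsPullback fst snd p (Spec.map (CommRingCat.ofHom (algebraMap k K)))) :
    IsIntegral (pullback j fst) := by
  have h1 := (IsPullback.of_hasPullback j fst).flip.paste_horiz h.flip
  rw [hj] at h1
  have h2 := isPullback_SpecMap_of_isPushout _ _ _ _ (QR.baseChange_isPushout K G)
  have hd' : (G.map (algebraMap k K)).natDegree ≠ 0 := by
    rwa [Polynomial.natDegree_map]
  have := QR.isDomain (G.map (algebraMap k K)) (hs.map) hd'
  have e := h1.flip.isoIsPullback _ _ h2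
  have : IsIntegral (Spec (.of (QR (G.map (algebraMap k K))))) := inferInstance
  exact IsIntegral.of_isIso e.inv

end BC

section GI

variable {k : Type u} [Field k]

/-- a union of two charts as in `chart_integral` is geometrically integral -/
lemma geomIntegral_of_charts {X : Scheme.{u}} (p : X ⟶ Spec (.of k))
    (G₀ G₁ : k[X]) (hs₀ : G₀.Separable) (hd₀ : G₀.natDegree ≠ 0)
    (hs₁ : G₁.Separable) (hd₁ : G₁.natDegree ≠ 0)
    (j₀ : Spec (.of (QR G₀)) ⟶ X) (j₁ : Spec (.of (QR G₁)) ⟶ X)
    [IsOpenImmersion j₀] [IsOpenImmersion j₁]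
    (hj₀ : j₀ ≫ p = Spec.map (CommRingCat.ofHom (algebraMap k (QR G₀))))
    (hj₁ : j₁ ≫ p = Spec.map (CommRingCat.ofHom (algebraMap k (QR G₁))))
    (hcov : ∀ x : X, x ∈ Set.range j₀ ∨ x ∈ Set.range j₁)
    (x₀ : X) (hx₀ : x₀ ∈ Set.range j₀) (hx₁ : x₀ ∈ Set.range j₁) : GeometricallyIntegral p := by
  rw [geometricallyIntegral_iff, geometrically_iff_of_commRing]
  intro K _ _ Y fst snd h
  have i₀ := chart_integral K G₀ hs₀ hd₀ j₀ p hj₀ fst snd h
  have i₁ := chart_integral K G₁ hs₁ hd₁ j₁ p hj₁ fst snd h
  have hsurj : Surjective fst := by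
    have : Surjective (Spec.map (CommRingCat.ofHom (algebraMap k K))) := by
      constructor
      intro y
      exact ⟨Nonempty.some inferInstance, Subsingleton.elim _ _⟩
    exact MorphismProperty.of_isPullback h.flip this
  have r₀ : Set.range (pullback.snd j₀ fst) = fst ⁻¹' Set.range j₀ := Scheme.Pullback.range_snd _ _
  have r₁ : Set.range (pullback.snd j₁ fst) = fst ⁻¹' Set.range j₁ := Scheme.Pullback.range_snd _ _
  obtain ⟨y₀, hy₀⟩ := hsurj.surj x₀
  have irr : IrreducibleSpace Y := by
    apply irreducibleSpace_of_two (S := Set.range (pullback.snd j₀ fst))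
      (T := Set.range (pullback.snd j₁ fst))
    · exact (pullback.snd j₁ fst).isOpenEmbedding.isOpen_range
    · exact (pullback.snd j₀ fst).isOpenEmbedding.isOpen_range
    · rw [← Set.image_univ]
      exact (IrreducibleSpace.isIrreducible_univ _).image _
        (pullback.snd j₀ fst).continuous.continuousOn
    · rw [← Set.image_univ]
      exact (IrreducibleSpace.isIrreducible_univ _).image _
        (pullback.snd j₁ fst).continuous.continuousOn
    · rw [r₀, r₁, Set.eq_univ_iff_forall]
      intro y
      exact hcov (fst y)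
    · refine ⟨y₀, ?_, ?_⟩
      · rw [r₀, Set.mem_preimage, hy₀]; exact hx₀
      · rw [r₁, Set.mem_preimage, hy₀]; exact hx₁
  have red : IsReduced Y := by
    let 𝒰 : Y.OpenCover := Scheme.Cover.mkOfCovers Bool
      (fun j => match j with
        | false => pullback j₀ fst
        | true => pullback j₁ fst)
      (fun j => match j with
        | false => pullback.snd j₀ fst
        | true => pullback.snd j₁ fst)
      (by
        intro y
        rcases hcov (fst y) with hy | hy
        · have : y ∈ Set.range (pullback.snd j₀ fst) := by rw [r₀]; exact hy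
          obtain ⟨z, hz⟩ := this
          exact ⟨false, z, hz⟩
        · have : y ∈ Set.range (pullback.snd j₁ fst) := by rw [r₁]; exact hy
          obtain ⟨z, hz⟩ := this
          exact ⟨true, z, hz⟩)
      (by
        intro j
        match j with
        | false => exact inferInstanceAs (IsOpenImmersion (pullback.snd j₀ fst))
        | true => exact inferInstanceAs (IsOpenImmersion (pullback.snd j₁ fst)))
    rw [IsReduced.iff_of_openCover Y 𝒰]
    intro j
    match j with
    | false => exact inferInstanceAs (IsReduced (pullback j₀ fst))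
    | true => exact inferInstanceAs (IsReduced (pullback j₁ fst))
  exact isIntegral_of_irreducibleSpace_of_isReduced Y

variable (f : k[X]) (m : ℕ) (hf : f.natDegree = 2 * m)

lemma HC.geometricallyIntegral (hs : f.Separable) (hs' : f.reverse.Separable) (hm : m ≠ 0)
    (hd' : f.reverse.natDegree ≠ 0) : GeometricallyIntegral (HC.toSpec f m hf) := by
  have : Nontrivial (QR (φ0 k f)) := by
    apply AdjoinRoot.nontrivial
    rw [degree_eq_natDegree (quadPoly_monic _).ne_zero, quadPoly_natDegree]
    norm_num
  obtain ⟨y⟩ : Nonempty (Spec (.of (QR (φ0 k f)))) := inferInstance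
  refine geomIntegral_of_charts (HC.toSpec f m hf) f f.reverse hs (by rw [hf]; omega) hs' hd'
    (HC.ι₀ f m hf) (HC.ι₁ f m hf) (ι₀_toSpec f m hf) (ι₁_toSpec f m hf)
    (glue2.cover (qa f) (qb f m hf)) (HC.ι₀ f m hf (qa f y)) ⟨_, rfl⟩ ⟨qb f m hf y, ?_⟩
  rw [← Scheme.Hom.comp_apply, ← Scheme.Hom.comp_apply]
  exact congrArg (fun t => Scheme.Hom.toLRSHom t |>.base y) (glue2.w (qa f) (qb f m hf)).symm

end GI

end Pool.Agent.helper52
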