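import Mathlib
import Pool.Agent.helper52.Integral
import Pool.Agent.helper52.Arith

set_option autoImplicit false
set_option linter.unusedSectionVars false

open AlgebraicGeometry CategoryTheory Limits Polynomial HomogeneousLocalization

universe u

namespace Pool.Agent.helper52

section Sol

variable {k : Type u} [Field k]

lemma chart_solution (G : k[X]) {X : Scheme.{u}} (j : Spec (.of (QR G)) ⟶ X)
    [IsOpenImmersion j] (p : X ⟶ Spec (.of k))
    (hj : j ≫ p = Spec.map (CommRingCat.ofHom (algebraMap k (QR G))))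
    {K : Type u} [Field K] [Algebra k K] (φ : Spec (.of K) ⟶ X)
    (hφ : φ ≫ p = Spec.map (CommRingCat.ofHom (algebraMap k K)))
    (y : Spec (.of K)) (hy : φ y ∈ Set.range j) : ∃ a y : K, y ^ 2 = aeval a G := by
  have hr : Set.range φ ⊆ Set.range j := by
    rintro _ ⟨z, rfl⟩
    have : z = y := Subsingleton.elim _ _
    rw [this]; exact hy
  let ψ := IsOpenImmersion.lift j φ hr
  have hψ : ψ ≫ j = φ := IsOpenImmersion.lift_fac j φ hr
  let g := (Spec.preimage ψ).hom
  have hg : Spec.map (CommRingCat.ofHom g) = ψ := Spec.map_preimage ψ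
  have hk : g.comp (algebraMap k (QR G)) = algebraMap k K := by
    have h1 : Spec.map (CommRingCat.ofHom g) ≫ Spec.map (CommRingCat.ofHom (algebraMap k (QR G))) =
        Spec.map (CommRingCat.ofHom (algebraMap k K)) := by
      rw [hg, ← hj, ← Category.assoc, hψ, hφ]
    rw [← Spec.map_comp] at h1
    exact congrArg CommRingCat.Hom.hom (Spec.map_injective h1)
  refine ⟨g (AdjoinRoot.of _ Polynomial.X), g (AdjoinRoot.root _), ?_⟩
  rw [← map_pow, root_sq]
  have : (aeval (g (AdjoinRoot.of (quadPoly G) Polynomial.X)) : k[X] →ₐ[k] K).toRingHom =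
      g.comp (AdjoinRoot.of (quadPoly G)) := by
    apply Polynomial.ringHom_ext
    · intro a
      have := congrArg (fun t => t a) hk
      simp only [RingHom.comp_apply] at this
      simp only [AlgHom.toRingHom_eq_coe, RingHom.coe_coe, aeval_C, RingHom.comp_apply]
      rw [← this]; rfl
    · simp
  exact (congrArg (fun t => t G) this).symm

lemma HC.solution (f : k[X]) (m : ℕ) (hf : f.natDegree = 2 * m) {K : Type u} [Field K]
    [Algebra k K] (φ : Spec (.of K) ⟶ HC f m hf)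
    (hφ : φ ≫ HC.toSpec f m hf = Spec.map (CommRingCat.ofHom (algebraMap k K))) :
    (∃ a y : K, y ^ 2 = aeval a f) ∨ (∃ a y : K, y ^ 2 = aeval a f.reverse) := by
  let y : Spec (.of K) := Nonempty.some inferInstance
  rcases glue2.cover (qa f) (qb f m hf) (φ y) with h | h
  · exact Or.inl (chart_solution f (HC.ι₀ f m hf) _ (ι₀_toSpec f m hf) φ hφ y h)
  · exact Or.inr (chart_solution f.reverse (HC.ι₁ f m hf) _ (ι₁_toSpec f m hf) φ hφ y h)

end Sol

section Ex

/-- the sextic `(x³ - x + 1)² + 3` -/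
noncomputable def hh : ℚ[X] := (X ^ 3 - X + 1) ^ 2 + 3

lemma hh_eq : hh = X ^ 6 - 2 * X ^ 4 + 2 * X ^ 3 + X ^ 2 - 2 * X + 4 := by
  rw [hh]; ring

/-- the reversed sextic -/
noncomputable def hr : ℚ[X] := 4 * X ^ 6 - 2 * X ^ 5 + X ^ 4 + 2 * X ^ 3 - 2 * X ^ 2 + 1

lemma hh_natDegree : hh.natDegree = 6 := by
  rw [hh_eq]; compute_degree!

lemma hr_natDegree : hr.natDegree = 6 := by
  rw [hr]; compute_degree!

lemma hh_reverse : hh.reverse = hr := by
  ext n
  rw [coeff_reverse, hh_natDegree]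
  by_cases hn : n ≤ 6
  · rw [revAt_le hn, hh_eq, hr]
    have e4 : (4 : ℚ[X]) = C 4 := (map_ofNat C 4).symm
    have e2 : (2 : ℚ[X]) = C 2 := (map_ofNat C 2).symm
    rw [e4, e2]
    interval_cases n <;> simp [coeff_X, coeff_one, coeff_C, coeff_X_pow]
  · rw [not_le] at hn
    rw [revAt_eq_self_of_lt hn]
    rw [coeff_eq_zero_of_natDegree_lt (by rw [hh_natDegree]; exact hn),
      coeff_eq_zero_of_natDegree_lt (by rw [hr_natDegree]; exact hn)]

lemma hh_separable : hh.Separable := by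
  refine ⟨C (1 / 18168) * (522 * X ^ 4 - 1404 * X ^ 3 - 522 * X ^ 2 + 1926 * X + 4652),
    C (1 / 18168) * (- 87 * X ^ 5 + 234 * X ^ 4 + 145 * X ^ 3 - 564 * X ^ 2 - 580 * X + 220), ?_⟩
  have hd : derivative hh = 6 * X ^ 5 - 8 * X ^ 3 + 6 * X ^ 2 + 2 * X - 2 := by
    rw [hh_eq]
    simp only [derivative_add, derivative_sub, derivative_mul, derivative_X_pow, derivative_ofNat,
      derivative_X, Nat.cast_ofNat, map_ofNat]
    ring
  have hC : C (1 / 18168 : ℚ) * (18168 : ℚ[X]) = 1 := by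
    rw [← map_ofNat C 18168, ← C_mul]; norm_num
  rw [hd, hh_eq]
  linear_combination hC

lemma hr_separable : hr.Separable := by
  refine ⟨C (1 / 18168) * (35016 * X ^ 4 - 39022 * X ^ 3 + 48392 * X ^ 2 - 9432 * X + 18168),
    C (1 / 18168) * (- 5836 * X ^ 5 + 6990 * X ^ 4 - 8891 * X ^ 3 + 902 * X ^ 2 - 523 * X - 2358),
    ?_⟩
  have hd : derivative hr = 24 * X ^ 5 - 10 * X ^ 4 + 4 * X ^ 3 + 6 * X ^ 2 - 4 * X := by
    rw [hr]
    simp only [derivative_add, derivative_sub, derivative_mul, derivative_X_pow, derivative_ofNat,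
      derivative_X, Nat.cast_ofNat, map_ofNat, derivative_one]
    ring
  have hC : C (1 / 18168 : ℚ) * (18168 : ℚ[X]) = 1 := by
    rw [← map_ofNat C 18168, ← C_mul]; norm_num
  rw [hd, hr]
  linear_combination hC

lemma sep_const {c : ℚ} (hc : c ≠ 0) {g : ℚ[X]} (hg : g.Separable) : (C c * g).Separable := by
  obtain ⟨a, b, hab⟩ := hg
  refine ⟨C c⁻¹ * a, C c⁻¹ * b, ?_⟩
  have h1 : (C c⁻¹ : ℚ[X]) * C c = 1 := by rw [← C_mul, inv_mul_cancel₀ hc, C_1]
  rw [derivative_C_mul]
  linear_combination (a * g + b * derivative g) * h1 + hab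

lemma natDegree_const {c : ℚ} (hc : c ≠ 0) : (C c * hh).natDegree = 2 * 3 := by
  rw [natDegree_C_mul hc, hh_natDegree]

lemma reverse_const {c : ℚ} : (C c * hh).reverse = C c * hr := by
  rw [reverse_mul_of_domain, reverse_C, hh_reverse]

lemma aeval_hh {K : Type} [Field K] [Algebra ℚ K] (a : K) :
    aeval a hh = (a ^ 3 - a + 1) ^ 2 + 3 := by
  rw [hh]
  simp only [map_add, map_pow, map_sub, aeval_X, map_one, map_ofNat]

lemma aeval_hr {K : Type} [Field K] [Algebra ℚ K] (a : K) :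
    aeval a hr = (1 - a ^ 2 + a ^ 3) ^ 2 + 3 * a ^ 6 := by
  rw [hr]
  simp only [map_add, map_pow, map_sub, map_mul, aeval_X, map_one, map_ofNat]
  ring

/-- the curve `y² = c h(x)` -/
noncomputable def crv (c : ℚ) (hc : c ≠ 0) : Scheme.{0} := HC (C c * hh) 3 (natDegree_const hc)

/-- its structure morphism -/
noncomputable def crvTo (c : ℚ) (hc : c ≠ 0) : crv c hc ⟶ Spec (.of ℚ) :=
  HC.toSpec (C c * hh) 3 (natDegree_const hc)

lemma crv_solution (c : ℚ) (hc : c ≠ 0) {K : Type} [Field K]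
    [Algebra ℚ K] (φ : Spec (.of K) ⟶ crv c hc)
    (hφ : φ ≫ crvTo c hc = Spec.map (CommRingCat.ofHom (algebraMap ℚ K))) :
    ∃ X S Y : K, ¬ (X = 0 ∧ S = 0) ∧
      Y ^ 2 = algebraMap ℚ K c * ((X ^ 3 - X * S ^ 2 + S ^ 3) ^ 2 + 3 * S ^ 6) := by
  rcases HC.solution (C c * hh) 3 (natDegree_const hc) φ hφ with ⟨a, y, hy⟩ | ⟨a, y, hy⟩
  · refine ⟨a, 1, y, by simp, ?_⟩
    rw [hy, map_mul, aeval_hh, aeval_C]
    ring
  · refine ⟨1, a, y, by simp, ?_⟩
    rw [hy, reverse_const, map_mul, aeval_hr, aeval_C]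
    ring

lemma crv_pullback_no_points {K : Type} [Field K] [Algebra ℚ K] (hK : Module.finrank ℚ K = 2)
    (φ : Spec (.of K) ⟶ pullback (crvTo (-1) (by norm_num)) (crvTo 3 (by norm_num)))
    (hφ : φ ≫ pullback.fst _ _ ≫ crvTo (-1) (by norm_num) =
      Spec.map (CommRingCat.ofHom (algebraMap ℚ K))) : False := by
  obtain ⟨X, S, Y, hXS, h1⟩ := crv_solution (-1) (by norm_num) (φ ≫ pullback.fst _ _)
    (by rw [Category.assoc]; exact hφ)
  obtain ⟨T, U, Z, hTU, h2⟩ := crv_solution 3 (by norm_num) (φ ≫ pullback.snd _ _)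
    (by rw [Category.assoc, ← pullback.condition]; exact hφ)
  refine Arith.no_points K hK X S Y T U Z hXS hTU ?_ ?_
  · rw [h1]; simp
  · rw [h2]; simp

lemma exists_of_pointDegree {k : Type u} [Field k] {X : Scheme.{u}} (p : X ⟶ Spec (.of k)) (x : X)
    (d : ℕ) (h : pointDegree p x = d) :
    ∃ (K : Type u) (_ : Field K) (_ : Algebra k K) (φ : Spec (.of K) ⟶ X),
      Module.finrank k K = d ∧ φ ≫ p = Spec.map (CommRingCat.ofHom (algebraMap k K)) := by
  letI a : Algebra k (X.residueField x) := (resMap p x).toAlgebra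
  refine ⟨X.residueField x, inferInstance, a, X.fromSpecResidueField x, h, ?_⟩
  exact (Spec.map_preimage (X.fromSpecResidueField x ≫ p)).symm

lemma crv_pointsOfDegree_two :
    pointsOfDegree (pullback.fst (crvTo (-1) (by norm_num)) (crvTo 3 (by norm_num)) ≫
      crvTo (-1) (by norm_num)) 2 = ∅ := by
  rw [Set.eq_empty_iff_forall_notMem]
  rintro x ⟨-, hx⟩
  obtain ⟨K, _, _, φ, hK, hφ⟩ := exists_of_pointDegree _ x 2 hx
  exact crv_pullback_no_points hK φ hφ

end Ex

end Pool.Agent.helper52
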