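import Mathlib
import Pool.Agent.helper52.Points

set_option autoImplicit false
set_option linter.unusedSectionVars false

open AlgebraicGeometry CategoryTheory Limits Polynomial HomogeneousLocalization
open scoped TensorProduct

universe u

namespace Pool.Agent.helper52

section Der

variable {k : Type u} [Field k] (f : k[X])

/-- the derivation of the polynomial ring with `x ↦ 2y`, `y ↦ f'(x)` -/
noncomputable def QR.derMv : Derivation k (MvPolynomial (Fin 2) k) (MvPolynomial (Fin 2) k) :=
  MvPolynomial.mkDerivation k ![2 * MvPolynomial.X 1,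
    Bivariate.equivMvPolynomial k (C (derivative f))]

lemma QR.derMv_X0 : QR.derMv f (MvPolynomial.X 0) = 2 * MvPolynomial.X 1 := by
  simp [QR.derMv, MvPolynomial.mkDerivation_X]

lemma QR.derMv_X1 : QR.derMv f (MvPolynomial.X 1) =
    Bivariate.equivMvPolynomial k (C (derivative f)) := by
  simp [QR.derMv, MvPolynomial.mkDerivation_X]

lemma QR.derMv_C (g : k[X]) : QR.derMv f (Bivariate.equivMvPolynomial k (C g)) =
    Bivariate.equivMvPolynomial k (C (derivative g)) * (2 * MvPolynomial.X 1) := by
  induction g using Polynomial.induction_on' with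
  | add p q hp hq => simp [hp, hq, add_mul]
  | monomial n a =>
    rw [← Polynomial.C_mul_X_pow_eq_monomial, derivative_mul, derivative_C, zero_mul, zero_add,
      derivative_X_pow]
    simp only [map_mul, map_pow, Bivariate.equivMvPolynomial_C_C, Bivariate.equivMvPolynomial_C_X,
      Derivation.leibniz, Derivation.leibniz_pow, QR.derMv_X0, smul_eq_mul]
    have : QR.derMv f (MvPolynomial.C a) = 0 := Derivation.map_algebraMap _ a
    rw [this]
    simp
    ring

lemma QR.derMv_quad : QR.derMv f (Bivariate.equivMvPolynomial k (quadPoly f)) = 0 := by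
  rw [quadPoly, map_sub, map_pow, Bivariate.equivMvPolynomial_X, map_sub, QR.derMv_C,
    Derivation.leibniz_pow, QR.derMv_X1]
  simp
  ring

lemma QR.derMv_cond (x : MvPolynomial (Fin 2) k) (hx : QR.surj f x = 0) :
    QR.surj f (QR.derMv f x) = 0 := by
  obtain ⟨p, rfl⟩ := (Bivariate.equivMvPolynomial k).surjective x
  rw [QR.surj_equiv, AdjoinRoot.mk_eq_zero] at hx
  obtain ⟨c, rfl⟩ := hx
  rw [map_mul, Derivation.leibniz, QR.derMv_quad, smul_zero, add_zero, smul_eq_mul, map_mul,
    QR.surj_equiv, AdjoinRoot.mk_self, zero_mul]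

/-- the derivation of the coordinate ring with `x ↦ 2y`, `y ↦ f'(x)` -/
noncomputable def QR.der : Derivation k (QR f) (QR f) :=
  Derivation.liftOfSurjective (QR.surj_surjective f) (QR.derMv_cond f)

lemma QR.der_surj (x : MvPolynomial (Fin 2) k) : QR.der f (QR.surj f x) =
    QR.surj f (QR.derMv f x) :=
  Derivation.liftOfSurjective_apply (QR.surj_surjective f) (QR.derMv_cond f) x

lemma QR.der_x : QR.der f (AdjoinRoot.of (quadPoly f) X) = 2 * AdjoinRoot.root (quadPoly f) := by
  have h0 : AdjoinRoot.of (quadPoly f) X = QR.surj f (MvPolynomial.X 0) := by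
    rw [← Bivariate.equivMvPolynomial_C_X, QR.surj_equiv]; rfl
  have h1 : AdjoinRoot.root (quadPoly f) = QR.surj f (MvPolynomial.X 1) := by
    rw [← Bivariate.equivMvPolynomial_X, QR.surj_equiv]; rfl
  rw [h0, h1, QR.der_surj, QR.derMv_X0, map_mul, map_ofNat]

lemma QR.der_y : QR.der f (AdjoinRoot.root (quadPoly f)) =
    AdjoinRoot.of (quadPoly f) (derivative f) := by
  have h1 : AdjoinRoot.root (quadPoly f) = QR.surj f (MvPolynomial.X 1) := by
    rw [← Bivariate.equivMvPolynomial_X, QR.surj_equiv]; rfl
  rw [h1, QR.der_surj, QR.derMv_X1, QR.surj_equiv]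
  rfl

/-- In a formally etale extension field of the coordinate ring, `dx ≠ 0` and `y ≠ 0`. -/
lemma QR.field_facts (h2 : (2 : k) ≠ 0) (hs : f.Separable) {K : Type u} [Field K] [Algebra k K]
    [Algebra (QR f) K] [IsScalarTower k (QR f) K] [Algebra.FormallyEtale (QR f) K] :
    algebraMap (QR f) K (AdjoinRoot.root _) ≠ 0 ∧
      KaehlerDifferential.D k K (algebraMap (QR f) K (AdjoinRoot.of _ X)) ≠ 0 := by
  let ev : Ω[K⁄k] →ₗ[K] K :=
    ((Algebra.linearMap (QR f) K ∘ₗ (QR.der f).liftKaehlerDifferential).liftBaseChange K) ∘ₗ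
      (KaehlerDifferential.tensorKaehlerEquivOfFormallyEtale k (QR f) K).symm.toLinearMap
  have hev : ∀ c : QR f, ev (KaehlerDifferential.D k K (algebraMap (QR f) K c)) =
      algebraMap (QR f) K (QR.der f c) := by
    intro c
    simp only [ev, LinearMap.comp_apply, LinearEquiv.coe_coe,
      KaehlerDifferential.tensorKaehlerEquivOfFormallyEtale_symm_D_algebraMap]
    simp
  have hy : algebraMap (QR f) K (AdjoinRoot.root _) ≠ 0 := by
    intro h
    have h1 := hev (AdjoinRoot.root _)
    rw [h, map_zero, map_zero, QR.der_y] at h1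
    have h3 : algebraMap (QR f) K (AdjoinRoot.of _ f) = 0 := by
      rw [← root_sq, map_pow, h]; simp
    obtain ⟨a, b, hab⟩ := hs
    have h4 : algebraMap (QR f) K (AdjoinRoot.of _ (a * f + b * derivative f)) = 0 := by
      rw [map_add, map_mul, map_mul, map_add, map_mul, map_mul, h3, ← h1]; simp
    rw [hab, map_one, map_one] at h4
    exact one_ne_zero h4
  refine ⟨hy, ?_⟩
  intro h
  have h1 := hev (AdjoinRoot.of _ X)
  rw [h, map_zero, QR.der_x, map_mul, map_ofNat] at h1
  have h2' : (2 : K) ≠ 0 := by
    have := (algebraMap k K).injective.ne h2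
    rwa [map_ofNat, map_zero] at this
  exact mul_ne_zero h2' hy h1.symm

end Der

section Stalk

variable {X : Scheme.{u}} {A : Type u} [CommRing A] (j : Spec (.of A) ⟶ X) [IsOpenImmersion j]

lemma range_stalk_subset (x : X) (hx : x ∈ Set.range j) :
    Set.range (X.fromSpecStalk x) ⊆ Set.range j := by
  rw [Scheme.range_fromSpecStalk]
  intro y hy
  exact hy.mem_open j.isOpenEmbedding.isOpen_range hx

/-- the map from the coordinate ring of an affine chart to the local ring of a point in it -/
noncomputable def toStalk (x : X) (hx : x ∈ Set.range j) : A →+* X.presheaf.stalk x :=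
  (Spec.preimage (IsOpenImmersion.lift j (X.fromSpecStalk x) (range_stalk_subset j x hx))).hom

lemma toStalk_spec (x : X) (hx : x ∈ Set.range j) :
    Spec.map (CommRingCat.ofHom (toStalk j x hx)) ≫ j = X.fromSpecStalk x := by
  have : Spec.map (CommRingCat.ofHom (toStalk j x hx)) =
    IsOpenImmersion.lift j (X.fromSpecStalk x) (range_stalk_subset j x hx) :=
    Spec.map_preimage _
  rw [this, IsOpenImmersion.lift_fac]

lemma toStalk_unique (x : X) (hx : x ∈ Set.range j) (g : A →+* X.presheaf.stalk x)
    (hg : Spec.map (CommRingCat.ofHom g) ≫ j = X.fromSpecStalk x) : g = toStalk j x hx := by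
  have h1 : Spec.map (CommRingCat.ofHom g) = Spec.map (CommRingCat.ofHom (toStalk j x hx)) := by
    rw [← cancel_mono j, hg, toStalk_spec]
  exact congrArg CommRingCat.Hom.hom (Spec.map_injective h1)

lemma toStalk_comp {B : Type u} [CommRing B] (j' : Spec (.of B) ⟶ X) [IsOpenImmersion j']
    (φ : A →+* B) (h : j' = Spec.map (CommRingCat.ofHom φ) ≫ j) (x : X) (hx' : x ∈ Set.range j')
    (hx : x ∈ Set.range j) : (toStalk j' x hx').comp φ = toStalk j x hx := by
  apply toStalk_unique
  rw [CommRingCat.ofHom_comp, Spec.map_comp, Category.assoc, ← h, toStalk_spec]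

lemma kStalk_eq {k : Type u} [Field k] [Algebra k A] (p : X ⟶ Spec (.of k))
    (hj : j ≫ p = Spec.map (CommRingCat.ofHom (algebraMap k A))) (x : X) (hx : x ∈ Set.range j) :
    kStalk p x = (toStalk j x hx).comp (algebraMap k A) := by
  have h1 : Spec.map (CommRingCat.ofHom (kStalk p x)) =
      Spec.map (CommRingCat.ofHom ((toStalk j x hx).comp (algebraMap k A))) := by
    rw [CommRingCat.ofHom_comp, Spec.map_comp, ← hj, ← Category.assoc, toStalk_spec]
    exact Spec.map_preimage _
  exact congrArg CommRingCat.Hom.hom (Spec.map_injective h1)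

lemma toStalk_generic [IrreducibleSpace X] (x : X) (hx : x ∈ Set.range j)
    (hξ : genericPoint X ∈ Set.range j) (a : A) :
    algebraMap (X.presheaf.stalk x) X.functionField (toStalk j x hx a) =
      toStalk j (genericPoint X) hξ a := by
  have h1 : (algebraMap (X.presheaf.stalk x) X.functionField).comp (toStalk j x hx) =
      toStalk j (genericPoint X) hξ := by
    apply toStalk_unique
    rw [CommRingCat.ofHom_comp, Spec.map_comp, Category.assoc, toStalk_spec]
    exact Scheme.SpecMap_stalkSpecializes_fromSpecStalk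
      ((genericPoint_spec X).specializes trivial)
  exact congrArg (fun t => t a) h1

lemma toStalk_formallyEtale (x : X) (hx : x ∈ Set.range j) :
    @Algebra.FormallyEtale A (X.presheaf.stalk x) _ _ (toStalk j x hx).toAlgebra := by
  obtain ⟨y, rfl⟩ := hx
  let e1 := (asIso (j.stalkMap y)).commRingCatIsoToRingEquiv
  let e2 := (Spec.stalkIso (.of A) y).commRingCatIsoToRingEquiv
  have h1 : toStalk j (j y) ⟨y, rfl⟩ = (e1.trans e2).symm.toRingHom.comp
      (algebraMap A (Localization.AtPrime y.asIdeal)) := by
    symm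
    apply toStalk_unique
    have e : CommRingCat.ofHom ((e1.trans e2).symm.toRingHom.comp
        (algebraMap A (Localization.AtPrime y.asIdeal))) =
        ((Scheme.ΓSpecIso (.of A)).inv ≫ (Spec (.of A)).presheaf.germ ⊤ y trivial) ≫
          inv (j.stalkMap y) :=
      congrArg (fun t => t ≫ inv (j.stalkMap y)) (Spec.algebraMap_stalkIso_inv y)
    rw [e, Spec.map_comp, ← Spec.fromSpecStalk_eq, Category.assoc,
      ← Scheme.SpecMap_stalkMap_fromSpecStalk, ← Category.assoc, ← Spec.map_comp, IsIso.hom_inv_id,
      Spec.map_id]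
    exact Category.id_comp _
  let _ : Algebra A (X.presheaf.stalk (j y)) := (toStalk j (j y) ⟨y, rfl⟩).toAlgebra
  have : Algebra.FormallyEtale A (Localization.AtPrime y.asIdeal) :=
    Algebra.FormallyEtale.of_isLocalization y.asIdeal.primeCompl
  let e : Localization.AtPrime y.asIdeal ≃ₐ[A] X.presheaf.stalk (j y) :=
    AlgEquiv.ofRingEquiv (f := (e1.trans e2).symm) (fun a => (congrArg (fun t => t a) h1).symm)
  exact Algebra.FormallyEtale.of_equiv e

end Stalk

end Pool.Agent.helper52
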