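import Mathlib
import Pool.Agent.helper52.Stalks

set_option autoImplicit false
set_option linter.unusedSectionVars false

open AlgebraicGeometry CategoryTheory Limits Polynomial HomogeneousLocalization
open scoped TensorProduct

universe u

namespace Pool.Agent.helper52

section Aux

variable {k : Type u} [Field k] {K : Type u} [Field K] [Algebra k K]

lemma QR.hom_of (G : k[X]) (i : QR G →+* K) (hi : i.comp (algebraMap k (QR G)) = algebraMap k K)
    (P : k[X]) : i (AdjoinRoot.of _ P) = aeval (i (AdjoinRoot.of _ X)) P := by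
  have : (aeval (i (AdjoinRoot.of (quadPoly G) X)) : k[X] →ₐ[k] K).toRingHom =
      i.comp (AdjoinRoot.of (quadPoly G)) := by
    apply Polynomial.ringHom_ext
    · intro a
      have := congrArg (fun t => t a) hi
      simp only [RingHom.comp_apply] at this
      simp only [AlgHom.toRingHom_eq_coe, RingHom.coe_coe, aeval_C, RingHom.comp_apply]
      rw [← this]; rfl
    · simp
  exact (congrArg (fun t => t P) this).symm

lemma QR.regular_aux (G : k[X]) (hs : G.Separable) (i : QR G →+* K)
    (hi : i.comp (algebraMap k (QR G)) = algebraMap k K) (hY : i (AdjoinRoot.root _) ≠ 0)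
    (c : QR G) : ∃ u v : QR G,
    (i c * (i (AdjoinRoot.root _))⁻¹) • KaehlerDifferential.D k K (i (AdjoinRoot.of _ X)) =
      i u • KaehlerDifferential.D k K (i (AdjoinRoot.of _ X)) +
      i v • KaehlerDifferential.D k K (i (AdjoinRoot.root _)) := by
  obtain ⟨a, b, hab⟩ := hs
  refine ⟨c * AdjoinRoot.of _ a * AdjoinRoot.root _, 2 * c * AdjoinRoot.of _ b, ?_⟩
  set x := i (AdjoinRoot.of _ X) with hx
  set y := i (AdjoinRoot.root _) with hy
  have h1 : y ^ 2 = aeval x G := by
    rw [hy, ← map_pow, root_sq, QR.hom_of G i hi]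
  have h2 : (2 * y) • KaehlerDifferential.D k K y =
      aeval x (derivative G) • KaehlerDifferential.D k K x := by
    rw [← Derivation.map_aeval, ← h1, Derivation.leibniz_pow]
    simp [mul_smul, ofNat_smul_eq_nsmul]
  have h3 : aeval x a * y ^ 2 + aeval x b * aeval x (derivative G) = 1 := by
    rw [h1, ← map_mul, ← map_mul, ← map_add, hab, map_one]
  have h4 : i (2 * c * AdjoinRoot.of _ b) • KaehlerDifferential.D k K y =
      (i c * aeval x b * y⁻¹) • ((2 * y) • KaehlerDifferential.D k K y) := by
    rw [smul_smul, map_mul, map_mul, map_ofNat, QR.hom_of G i hi b, ← hx]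
    congr 1
    field_simp
  rw [h4, h2, smul_smul, ← add_smul, map_mul, map_mul, QR.hom_of G i hi a, ← hx, ← hy]
  congr 1
  field_simp
  linear_combination (-i c) * h3

end Aux

section Chart

variable {k : Type u} [Field k] {X : Scheme.{u}} [IsIntegral X] (p : X ⟶ Spec (.of k))
  (G : k[X]) (hs : G.Separable) (j : Spec (.of (QR G)) ⟶ X) [IsOpenImmersion j]
  (hj : j ≫ p = Spec.map (CommRingCat.ofHom (algebraMap k (QR G))))
  (hξ : genericPoint X ∈ Set.range j)

include hj hs in
lemma chart_regular (hY : toStalk j (genericPoint X) hξ (AdjoinRoot.root _) ≠ 0)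
    (x : X) (hx : x ∈ Set.range j) (c : QR G) :
    letI : Algebra k X.functionField := (kStalk p (genericPoint X)).toAlgebra
    (toStalk j (genericPoint X) hξ c * (toStalk j (genericPoint X) hξ (AdjoinRoot.root _))⁻¹) •
      KaehlerDifferential.D k X.functionField
        (toStalk j (genericPoint X) hξ (AdjoinRoot.of _ Polynomial.X)) ∈
    Submodule.span k {η : Ω[X.functionField⁄k] | ∃ a b : X.presheaf.stalk x,
    η = algebraMap (X.presheaf.stalk x) X.functionField a •
      KaehlerDifferential.D k X.functionField
        (algebraMap (X.presheaf.stalk x) X.functionField b)} := by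
  letI : Algebra k X.functionField := (kStalk p (genericPoint X)).toAlgebra
  obtain ⟨u, v, huv⟩ := QR.regular_aux (K := X.functionField) G hs
    (toStalk j (genericPoint X) hξ)
    (kStalk_eq j p hj (genericPoint X) hξ).symm hY c
  rw [huv]
  apply add_mem
  · apply Submodule.subset_span
    refine ⟨toStalk j x hx u, toStalk j x hx (AdjoinRoot.of _ Polynomial.X), ?_⟩
    rw [toStalk_generic j x hx hξ, toStalk_generic j x hx hξ]
  · apply Submodule.subset_span
    refine ⟨toStalk j x hx v, toStalk j x hx (AdjoinRoot.root _), ?_⟩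
    rw [toStalk_generic j x hx hξ, toStalk_generic j x hx hξ]

end Chart

end Pool.Agent.helper52
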