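import Mathlib
import Pool.Agent.helper52.Genus

set_option autoImplicit false
set_option linter.unusedSectionVars false

open AlgebraicGeometry CategoryTheory Limits Polynomial HomogeneousLocalization
open scoped TensorProduct

universe u

namespace Pool.Agent.helper52

section MapLemmas

variable {A B : Type u} [CommRing A] [CommRing B]

lemma QR.map_of (φ : A →+* B) (F : A) (G w : B) (h : w ^ 2 * G = φ F) (a : A) :
    QR.map φ F G w h (AdjoinRoot.of _ a) = AdjoinRoot.of _ (φ a) :=
  QR.lift_of _ _ _ _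

lemma QR.map_root (φ : A →+* B) (F : A) (G w : B) (h : w ^ 2 * G = φ F) :
    QR.map φ F G w h (AdjoinRoot.root _) = AdjoinRoot.of _ w * AdjoinRoot.root _ :=
  QR.lift_root _ _ _

lemma φ0_X {k : Type u} [Field k] : φ0 k X = LaurentPolynomial.T 1 := by
  simp [φ0]

lemma φ1_X {k : Type u} [Field k] : φ1 k X = LaurentPolynomial.T (-1) := by
  simp [φ1]

end MapLemmas

section LinAlg

variable {k : Type u} [Field k] {K : Type u} [Field K] [Algebra k K]

lemma two_le_rank_aux (W : Submodule k (Ω[K⁄k])) (x y : K) (hy : y ≠ 0)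
    (hx : KaehlerDifferential.D k K x ≠ 0)
    (h0 : y⁻¹ • KaehlerDifferential.D k K x ∈ W)
    (h1 : (x * y⁻¹) • KaehlerDifferential.D k K x ∈ W) : 2 ≤ Module.rank k W := by
  have hli : LinearIndependent k ![(⟨_, h0⟩ : W), (⟨_, h1⟩ : W)] := by
    rw [LinearIndependent.pair_iff]
    intro a b hab
    have h := congrArg (fun t : W => (t : Ω[K⁄k])) hab
    simp only [Submodule.coe_add, Submodule.coe_smul, Submodule.coe_zero] at h
    rw [← algebraMap_smul K a, ← algebraMap_smul K b, smul_smul, smul_smul, ← add_smul,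
      smul_eq_zero] at h
    have h' : algebraMap k K a + algebraMap k K b * x = 0 := by
      rcases h with h | h
      · have : (algebraMap k K a + algebraMap k K b * x) * y⁻¹ = 0 := by
          rw [← h]; ring
        exact (mul_eq_zero.mp this).resolve_right (inv_ne_zero hy)
      · exact absurd h hx
    have hb : b = 0 := by
      by_contra hb
      apply hx
      have hb' : algebraMap k K b ≠ 0 := by
        rw [Ne, map_eq_zero]; exact hb
      have : x = algebraMap k K (-a / b) := by
        rw [map_div₀, map_neg]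
        field_simp
        linear_combination h'
      rw [this]
      exact Derivation.map_algebraMap _ _
    refine ⟨?_, hb⟩
    rw [hb, map_zero, zero_mul, add_zero, map_eq_zero] at h'
    exact h'
  have := hli.cardinal_lift_le_rank
  simpa using this

end LinAlg

lemma fld_aux {K : Type u} [Field K] (x w : K) (hx : x ≠ 0) (e m : ℕ)
    (he : e ≤ m - 2) (hm : 2 ≤ m) :
    x ^ e * (w * x ^ m)⁻¹ = -x⁻¹ ^ (m - 2 - e) * w⁻¹ * -x⁻¹ ^ 2 := by
  obtain ⟨d, rfl⟩ : ∃ d, m = e + d + 2 := ⟨m - 2 - e, by omega⟩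
  have hd : e + d + 2 - 2 - e = d := by omega
  rw [hd, inv_pow, inv_pow, mul_inv, neg_mul, mul_neg, neg_mul, neg_neg, pow_add, pow_add, mul_inv,
    mul_inv]
  have h1 : x ^ e * (x ^ e)⁻¹ = 1 := mul_inv_cancel₀ (pow_ne_zero _ hx)
  linear_combination (w⁻¹ * (x ^ d)⁻¹ * (x ^ 2)⁻¹) * h1

section Final

variable {k : Type u} [Field k] (f : k[X]) (m : ℕ) (hf : f.natDegree = 2 * m)

theorem HC.genus_ge (h2 : (2 : k) ≠ 0) (hs : f.Separable) (hs' : f.reverse.Separable)
    (hm : 3 ≤ m) [IsIntegral (HC f m hf)] : 2 ≤ genus (HC.toSpec f m hf) := by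
  let ξ := genericPoint (HC f m hf)
  have : Nontrivial (QR (φ0 k f)) := by
    apply AdjoinRoot.nontrivial
    rw [degree_eq_natDegree (quadPoly_monic _).ne_zero, quadPoly_natDegree]
    norm_num
  obtain ⟨z⟩ : Nonempty (Spec (.of (QR (φ0 k f)))) := inferInstance
  have hmem : ∀ {Y : Scheme.{u}} (j : Y ⟶ HC f m hf) [IsOpenImmersion j] (z : Y),
      ξ ∈ Set.range j := by
    intro Y j _ z
    exact ((genericPoint_spec (HC f m hf)).mem_open_set_iff j.isOpenEmbedding.isOpen_range).mpr
      ⟨j z, trivial, ⟨z, rfl⟩⟩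
  have h01 := hmem (qa f ≫ HC.ι₀ f m hf) z
  have h0 := hmem (HC.ι₀ f m hf) (qa f z)
  have h1 := hmem (HC.ι₁ f m hf) (qb f m hf z)
  let i01 := toStalk (qa f ≫ HC.ι₀ f m hf) ξ h01
  let i0 := toStalk (HC.ι₀ f m hf) ξ h0
  let i1 := toStalk (HC.ι₁ f m hf) ξ h1
  have e0 : i01.comp (QR.map (φ0 k) f (φ0 k f) 1 (by simp)) = i0 :=
    toStalk_comp (HC.ι₀ f m hf) (qa f ≫ HC.ι₀ f m hf) _ rfl ξ h01 h0
  have e1 : i01.comp (QR.map (φ1 k) f.reverse (φ0 k f)
    (LaurentPolynomial.T (-(m : ℤ))) (rev_eq hf)) = i1 :=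
    toStalk_comp (HC.ι₁ f m hf) (qa f ≫ HC.ι₀ f m hf) _ (glue2.w (qa f) (qb f m hf)) ξ h01 h1
  letI : Algebra k (HC f m hf).functionField := (kStalk (HC.toSpec f m hf) ξ).toAlgebra
  letI : Algebra (QR f) (HC f m hf).functionField := i0.toAlgebra
  have : IsScalarTower k (QR f) (HC f m hf).functionField :=
    IsScalarTower.of_algebraMap_eq' (kStalk_eq _ _ (ι₀_toSpec f m hf) ξ h0)
  have : Algebra.FormallyEtale (QR f) (HC f m hf).functionField :=
    toStalk_formallyEtale (HC.ι₀ f m hf) ξ h0
  obtain ⟨hy, hx⟩ := QR.field_facts f h2 hs (K := (HC f m hf).functionField)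
  set x : (HC f m hf).functionField := i0 (AdjoinRoot.of _ X) with hxd
  set y : (HC f m hf).functionField := i0 (AdjoinRoot.root _) with hyd
  change y ≠ 0 at hy
  change KaehlerDifferential.D k (HC f m hf).functionField x ≠ 0 at hx
  set s : (HC f m hf).functionField := i1 (AdjoinRoot.of _ X) with hsd
  set w : (HC f m hf).functionField := i1 (AdjoinRoot.root _) with hwd
  have hx' : x = i01 (AdjoinRoot.of _ (LaurentPolynomial.T 1)) := by
    rw [hxd, ← e0, RingHom.comp_apply, QR.map_of, φ0_X]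
  have hs'' : s = i01 (AdjoinRoot.of _ (LaurentPolynomial.T (-1))) := by
    rw [hsd, ← e1, RingHom.comp_apply, QR.map_of, φ1_X]
  have hxs : x * s = 1 := by
    rw [hx', hs'', ← map_mul, ← map_mul, ← LaurentPolynomial.T_add]
    simp
  have hyw : y = w * x ^ m := by
    have hy' : y = i01 (AdjoinRoot.root _) := by
      rw [hyd, ← e0, RingHom.comp_apply, QR.map_root, map_one, one_mul]
    have hw' : w = i01 (AdjoinRoot.of _ (LaurentPolynomial.T (-(m : ℤ)))) * i01 (AdjoinRoot.root _) := by
      rw [hwd, ← e1, RingHom.comp_apply, QR.map_root, map_mul]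
    rw [hy', hw', hx', ← map_pow, ← map_pow, mul_right_comm, ← map_mul, ← map_mul,
      ← map_mul, LaurentPolynomial.T_pow, mul_one, ← LaurentPolynomial.T_add, neg_add_cancel,
      LaurentPolynomial.T_zero, map_one, one_mul]
  have hx0 : x ≠ 0 := left_ne_zero_of_mul_eq_one hxs
  have hsx : s = x⁻¹ := eq_inv_of_mul_eq_one_right hxs
  have hw0 : w ≠ 0 := by
    intro h
    rw [h, zero_mul] at hyw
    exact hy hyw
  have key : ∀ e : ℕ, e ≤ m - 2 → (x ^ e * y⁻¹) • KaehlerDifferential.D k
      (HC f m hf).functionField x ∈ regularDifferentials (HC.toSpec f m hf) := by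
    intro e he
    rw [regularDifferentials, Submodule.mem_iInf]
    intro t
    rcases glue2.cover (qa f) (qb f m hf) t with ht | ht
    · have := chart_regular (HC.toSpec f m hf) f hs (HC.ι₀ f m hf) (ι₀_toSpec f m hf) h0 hy t ht
        (AdjoinRoot.of _ X ^ e)
      rw [map_pow] at this
      exact this
    · have := chart_regular (HC.toSpec f m hf) f.reverse hs' (HC.ι₁ f m hf) (ι₁_toSpec f m hf) h1
        hw0 t ht (- AdjoinRoot.of _ X ^ (m - 2 - e))
      rw [map_neg, map_pow] at this
      convert this using 1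
      change _ = (-s ^ (m - 2 - e) * w⁻¹) • KaehlerDifferential.D k
        (HC f m hf).functionField s
      rw [hsx, Derivation.leibniz_inv, smul_smul]
      congr 1
      rw [hyw]
      exact fld_aux x w hx0 e m he (by omega)
  refine two_le_rank_aux _ x y hy hx ?_ ?_
  · have := key 0 (by omega)
    rwa [pow_zero, one_mul] at this
  · have := key 1 (by omega)
    rwa [pow_one] at this

end Final

end Pool.Agent.helper52
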