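import Mathlib
import Pool.Agent.helper52.GenusBound

set_option autoImplicit false
set_option linter.unusedSectionVars false

open AlgebraicGeometry CategoryTheory Limits Polynomial HomogeneousLocalization

universe u

namespace Pool.Agent.helper52

attribute [local instance] MvPolynomial.gradedAlgebra

section Gen

variable {k : Type u} [Field k] {n : ℕ} {R : Type u} [CommRing R]

/-- The morphism `Spec R ⟶ ℙⁿ` given by an evaluation at which `X i` becomes a unit. -/
noncomputable def toPP (φ : MvPolynomial (Fin (n + 1)) k →+* R) (i : Fin (n + 1))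
    (h : IsUnit (φ (MvPolynomial.X i))) : Spec (.of R) ⟶ PP n k :=
  Spec.map (CommRingCat.ofHom (awayEval (gr n k) (MvPolynomial.X i) φ h)) ≫
    Proj.awayι (gr n k) (MvPolynomial.X i) (X_mem k n i) one_pos

lemma toPP_mem_iff (φ : MvPolynomial (Fin (n + 1)) k →+* R) (i : Fin (n + 1))
    (h : IsUnit (φ (MvPolynomial.X i))) (y : Spec (.of R)) (l : Fin (n + 1)) :
    toPP φ i h y ∈ Proj.basicOpen (gr n k) (MvPolynomial.X l) ↔
      y ∈ PrimeSpectrum.basicOpen (φ (MvPolynomial.X l)) := by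
  have h1 := Proj.awayι_preimage_basicOpen (gr n k) (X_mem k n i) one_pos (X_mem k n l) one_pos
  rw [toPP, Scheme.Hom.comp_apply]
  change _ ∈ (Proj.awayι (gr n k) (MvPolynomial.X i) (X_mem k n i) one_pos ⁻¹ᵁ
    Proj.basicOpen (gr n k) (MvPolynomial.X l)) ↔ _
  rw [h1]
  have h2 : awayEval (gr n k) (MvPolynomial.X i) φ h
      (Away.isLocalizationElem (X_mem k n i) (X_mem k n l)) * φ (MvPolynomial.X i) ^ 1 =
        φ (MvPolynomial.X l ^ 1) := awayEval_mk (gr n k) φ h (X_mem k n i) 1 _ _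
  rw [map_pow, pow_one, pow_one] at h2
  change awayEval (gr n k) (MvPolynomial.X i) φ h
    (Away.isLocalizationElem (X_mem k n i) (X_mem k n l)) ∉ y.asIdeal ↔ _
  change _ ↔ φ (MvPolynomial.X l) ∉ y.asIdeal
  rw [← h2, Ideal.mul_unit_mem_iff_mem _ h]

/-- Different representations of the same point. -/
lemma toPP_eq (φ φ' : MvPolynomial (Fin (n + 1)) k →+* R) (i j : Fin (n + 1))
    (h : IsUnit (φ (MvPolynomial.X i))) (h' : IsUnit (φ' (MvPolynomial.X j))) (v : R)
    (hv : IsUnit v) (hC : ∀ c, φ' (MvPolynomial.C c) = φ (MvPolynomial.C c))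
    (hX : ∀ l, φ' (MvPolynomial.X l) = v * φ (MvPolynomial.X l)) :
    toPP φ i h = toPP φ' j h' := by
  have hij : IsUnit (φ (MvPolynomial.X i * MvPolynomial.X j)) := by
    rw [map_mul]
    refine h.mul ?_
    have := h'
    rw [hX] at this
    exact isUnit_of_mul_isUnit_right this
  have hij' : IsUnit (φ' (MvPolynomial.X i * MvPolynomial.X j)) := by
    rw [map_mul]
    refine IsUnit.mul ?_ h'
    rw [hX]
    exact hv.mul h
  have e1 : toPP φ i h = Spec.map (CommRingCat.ofHom (awayEval (gr n k)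
      (MvPolynomial.X i * MvPolynomial.X j) φ hij)) ≫
      Proj.awayι (gr n k) (MvPolynomial.X i * MvPolynomial.X j)
        (SetLike.mul_mem_graded (X_mem k n i) (X_mem k n j)) (by norm_num) := by
    rw [← Proj.SpecMap_awayMap_awayι (gr n k) (X_mem k n i) one_pos (X_mem k n j) rfl,
      ← Category.assoc, ← Spec.map_comp, ← CommRingCat.ofHom_comp,
      awayEval_comp_awayMap (gr n k) φ hij (X_mem k n i) (X_mem k n j) rfl h]
    rfl
  have e2 : toPP φ' j h' = Spec.map (CommRingCat.ofHom (awayEval (gr n k)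
      (MvPolynomial.X i * MvPolynomial.X j) φ' hij')) ≫
      Proj.awayι (gr n k) (MvPolynomial.X i * MvPolynomial.X j)
        (SetLike.mul_mem_graded (X_mem k n i) (X_mem k n j)) (by norm_num) := by
    rw [← Proj.SpecMap_awayMap_awayι (gr n k) (X_mem k n j) one_pos (X_mem k n i)
      (mul_comm _ _), ← Category.assoc, ← Spec.map_comp, ← CommRingCat.ofHom_comp,
      awayEval_comp_awayMap (gr n k) φ' hij' (X_mem k n j) (X_mem k n i) (mul_comm _ _) h']
    rfl
  rw [e1, e2]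
  congr 3
  exact awayEval_scale φ φ' v hC hX (SetLike.mul_mem_graded (X_mem k n i) (X_mem k n j)) hij hij'

/-- Functoriality. -/
lemma toPP_comp {S : Type u} [CommRing S] (φ : MvPolynomial (Fin (n + 1)) k →+* R)
    (i : Fin (n + 1)) (h : IsUnit (φ (MvPolynomial.X i))) (ρ : R →+* S) :
    Spec.map (CommRingCat.ofHom ρ) ≫ toPP φ i h = toPP (ρ.comp φ) i (h.map ρ) := by
  rw [toPP, toPP, ← Category.assoc, ← Spec.map_comp, ← CommRingCat.ofHom_comp,
    comp_awayEval (gr n k) φ h ρ (X_mem k n i)]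

lemma toPP_toSpec (φ : MvPolynomial (Fin (n + 1)) k →+* R) (i : Fin (n + 1))
    (h : IsUnit (φ (MvPolynomial.X i))) :
    toPP φ i h ≫ PP.toSpec n k = Spec.map (CommRingCat.ofHom (φ.comp MvPolynomial.C)) := by
  rw [toPP, PP.toSpec, Category.assoc, Proj.awayι_toSpecZero_assoc, ← Spec.map_comp,
    ← Spec.map_comp, ← CommRingCat.ofHom_comp, ← CommRingCat.ofHom_comp]
  congr 2
  ext a : 1
  rw [RingHom.comp_apply, RingHom.comp_apply, fromZero_eq n _ (X_mem k n i)]
  have h2 := awayEval_mk (gr n k) φ h (X_mem k n i) 0 (MvPolynomial.C a)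
    (by rw [zero_smul]; exact MvPolynomial.isHomogeneous_C (Fin (n + 1)) a)
  rw [pow_zero, mul_one] at h2
  exact h2

/-- Surjectivity of the evaluation on the chart. -/
lemma awayEval_surjective (φ : MvPolynomial (Fin (n + 1)) k →+* R) (i : Fin (n + 1))
    (h1 : φ (MvPolynomial.X i) = 1) (h : IsUnit (φ (MvPolynomial.X i)))
    (hφ : Function.Surjective φ) :
    Function.Surjective (awayEval (gr n k) (MvPolynomial.X i) φ h) := by
  intro r
  obtain ⟨p, rfl⟩ := hφ r
  change φ p ∈ (awayEval (gr n k) (MvPolynomial.X i) φ h).range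
  induction p using MvPolynomial.induction_on with
  | C a =>
    have h2 := awayEval_mk (gr n k) φ h (X_mem k n i) 0 (MvPolynomial.C a)
      (by rw [zero_smul]; exact MvPolynomial.isHomogeneous_C (Fin (n + 1)) a)
    rw [pow_zero, mul_one] at h2
    exact ⟨_, h2⟩
  | add p q hp hq => rw [map_add]; exact add_mem hp hq
  | mul_X p l hp =>
    rw [map_mul]
    refine mul_mem hp ?_
    have h2 := awayEval_mk (gr n k) φ h (X_mem k n i) 1 (MvPolynomial.X l)
      (by rw [smul_eq_mul, mul_one]; exact X_mem k n l)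
    rw [pow_one, h1, mul_one] at h2
    exact ⟨_, h2⟩

end Gen

section Emb

variable {k : Type u} [Field k] (f : k[X]) (hf : f.natDegree = 2 * 3)

/-- evaluation `(1 : x : x² : x³ : y)` -/
noncomputable def evC0 : MvPolynomial (Fin 5) k →+* QR f :=
  (MvPolynomial.aeval (R := k) ![1, AdjoinRoot.of (quadPoly f) X, AdjoinRoot.of (quadPoly f) X ^ 2,
    AdjoinRoot.of (quadPoly f) X ^ 3, AdjoinRoot.root (quadPoly f)]).toRingHom

/-- evaluation `(s³ : s² : s : 1 : w)` -/
noncomputable def evC1 (g : k[X]) : MvPolynomial (Fin 5) k →+* QR g :=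
  (MvPolynomial.aeval (R := k) ![AdjoinRoot.of (quadPoly g) X ^ 3,
    AdjoinRoot.of (quadPoly g) X ^ 2, AdjoinRoot.of (quadPoly g) X, 1,
    AdjoinRoot.root (quadPoly g)]).toRingHom

lemma evC0_C (a : k) : evC0 f (MvPolynomial.C a) = algebraMap k (QR f) a := by
  simp [evC0]

lemma evC1_C (a : k) : evC1 f (MvPolynomial.C a) = algebraMap k (QR f) a := by
  simp [evC1]

lemma QR.surj_X0 : QR.surj f (MvPolynomial.X 0) = AdjoinRoot.of (quadPoly f) X := by
  rw [← Bivariate.equivMvPolynomial_C_X, QR.surj_equiv]; rfl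

lemma QR.surj_X1 : QR.surj f (MvPolynomial.X 1) = AdjoinRoot.root (quadPoly f) := by
  rw [← Bivariate.equivMvPolynomial_X, QR.surj_equiv]; rfl

lemma QR.subring_eq_top (S : Subring (QR f)) (h1 : ∀ a : k, algebraMap k (QR f) a ∈ S)
    (h2 : AdjoinRoot.of (quadPoly f) X ∈ S) (h3 : AdjoinRoot.root (quadPoly f) ∈ S) (r : QR f) :
    r ∈ S := by
  obtain ⟨q, rfl⟩ := QR.surj_surjective f r
  induction q using MvPolynomial.induction_on with
  | C a =>
    have : QR.surj f (MvPolynomial.C a) = algebraMap k (QR f) a := AlgHom.commutes _ a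
    rw [this]; exact h1 a
  | add p q hp hq => rw [map_add]; exact add_mem hp hq
  | mul_X p l hp =>
    rw [map_mul]
    refine mul_mem hp ?_
    fin_cases l
    · exact (QR.surj_X0 f).symm ▸ h2
    · exact (QR.surj_X1 f).symm ▸ h3

lemma evC0_surjective : Function.Surjective (evC0 f) := by
  intro r
  refine QR.subring_eq_top f (evC0 f).range ?_ ?_ ?_ r
  · intro a; exact ⟨MvPolynomial.C a, evC0_C f a⟩
  · exact ⟨MvPolynomial.X 1, by simp [evC0]⟩
  · exact ⟨MvPolynomial.X 4, by simp [evC0]⟩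

lemma evC1_surjective : Function.Surjective (evC1 f) := by
  intro r
  refine QR.subring_eq_top f (evC1 f).range ?_ ?_ ?_ r
  · intro a; exact ⟨MvPolynomial.C a, evC1_C f a⟩
  · exact ⟨MvPolynomial.X 2, by simp [evC1]⟩
  · exact ⟨MvPolynomial.X 4, by simp [evC1]⟩

lemma evC0_X1 : evC0 f (MvPolynomial.X 1) = AdjoinRoot.of (quadPoly f) X := by simp [evC0]

lemma evC0_X2 : evC0 f (MvPolynomial.X 2) = AdjoinRoot.of (quadPoly f) X ^ 2 := by simp [evC0]

lemma evC0_X4 : evC0 f (MvPolynomial.X 4) = AdjoinRoot.root (quadPoly f) := by simp [evC0]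

lemma evC1_X1 : evC1 f (MvPolynomial.X 1) = AdjoinRoot.of (quadPoly f) X ^ 2 := by simp [evC1]

lemma evC1_X2 : evC1 f (MvPolynomial.X 2) = AdjoinRoot.of (quadPoly f) X := by simp [evC1]

lemma evC1_X4 : evC1 f (MvPolynomial.X 4) = AdjoinRoot.root (quadPoly f) := by simp [evC1]

lemma evC0_X0 : evC0 f (MvPolynomial.X 0) = 1 := by simp [evC0]

lemma evC0_X3 : evC0 f (MvPolynomial.X 3) = AdjoinRoot.of (quadPoly f) X ^ 3 := by simp [evC0]

lemma evC1_X3 : evC1 f (MvPolynomial.X 3) = 1 := by simp [evC1]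

lemma evC1_X0 : evC1 f (MvPolynomial.X 0) = AdjoinRoot.of (quadPoly f) X ^ 3 := by simp [evC1]

/-- first chart of the embedding -/
noncomputable def emb0 : Spec (.of (QR f)) ⟶ PP 4 k :=
  toPP (evC0 f) 0 (by rw [evC0_X0]; exact isUnit_one)

/-- second chart of the embedding -/
noncomputable def emb1 (g : k[X]) : Spec (.of (QR g)) ⟶ PP 4 k :=
  toPP (evC1 g) 3 (by rw [evC1_X3]; exact isUnit_one)

lemma emb_compat : qa f ≫ emb0 f = qb f 3 hf ≫ emb1 f.reverse := by
  rw [qa, qb, emb0, emb1, toPP_comp, toPP_comp]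
  have hT : ∀ a b : ℤ, (AdjoinRoot.of (quadPoly (φ0 k f)) (LaurentPolynomial.T a) *
      AdjoinRoot.of (quadPoly (φ0 k f)) (LaurentPolynomial.T b)) =
      AdjoinRoot.of (quadPoly (φ0 k f)) (LaurentPolynomial.T (a + b)) := by
    intro a b
    rw [← map_mul, ← LaurentPolynomial.T_add]
  have hT0 : AdjoinRoot.of (quadPoly (φ0 k f)) (LaurentPolynomial.T 0) = 1 := by
    rw [LaurentPolynomial.T_zero, map_one]
  apply toPP_eq (v := AdjoinRoot.of _ (LaurentPolynomial.T (-3)))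
  · exact (LaurentPolynomial.isUnit_T (-3)).map _
  · intro c
    rw [RingHom.comp_apply, RingHom.comp_apply, evC0_C, evC1_C]
    change QR.map _ _ _ _ _ (AdjoinRoot.of _ (C c)) = QR.map _ _ _ _ _ (AdjoinRoot.of _ (C c))
    rw [QR.map_of, QR.map_of]
    simp [φ0, φ1]
  · intro l
    match l with
    | 0 =>
      rw [RingHom.comp_apply, RingHom.comp_apply, evC1_X0, evC0_X0, map_pow, QR.map_of, φ1_X,
        ← map_pow, LaurentPolynomial.T_pow, map_one, mul_one]
      rfl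
    | 1 =>
      rw [RingHom.comp_apply, RingHom.comp_apply, evC1_X1, evC0_X1, map_pow, QR.map_of, QR.map_of,
        φ1_X, φ0_X, ← map_pow, LaurentPolynomial.T_pow, hT]
      rfl
    | 2 =>
      rw [RingHom.comp_apply, RingHom.comp_apply, evC1_X2, evC0_X2, map_pow, QR.map_of, QR.map_of,
        φ1_X, φ0_X, ← map_pow, LaurentPolynomial.T_pow, hT]
      rfl
    | 3 =>
      rw [RingHom.comp_apply, RingHom.comp_apply, evC1_X3, evC0_X3, map_pow, QR.map_of, map_one,
        φ0_X, ← map_pow, LaurentPolynomial.T_pow, hT]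
      exact hT0.symm
    | 4 =>
      rw [RingHom.comp_apply, RingHom.comp_apply, evC1_X4, evC0_X4, QR.map_root, QR.map_root,
        map_one, one_mul]
      rfl

/-- the embedding `(1 : x : x² : x³ : y)` of the curve in `ℙ⁴` -/
noncomputable def HC.emb : HC f 3 hf ⟶ PP 4 k :=
  glue2.desc (qa f) (qb f 3 hf) (emb0 f) (emb1 f.reverse) (emb_compat f hf)

lemma HC.ι₀_emb : HC.ι₀ f 3 hf ≫ HC.emb f hf = emb0 f := glue2.ι₀_desc _ _ _ _ _

lemma HC.ι₁_emb : HC.ι₁ f 3 hf ≫ HC.emb f hf = emb1 f.reverse := glue2.ι₁_desc _ _ _ _ _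

lemma HC.emb_toSpec : HC.emb f hf ≫ PP.toSpec 4 k = HC.toSpec f 3 hf := by
  apply glue2.hom_ext
  · change HC.ι₀ f 3 hf ≫ _ = HC.ι₀ f 3 hf ≫ _
    rw [← Category.assoc, HC.ι₀_emb, ι₀_toSpec, emb0, toPP_toSpec]
    congr 2
    ext a
    exact evC0_C f a
  · change HC.ι₁ f 3 hf ≫ _ = HC.ι₁ f 3 hf ≫ _
    rw [← Category.assoc, HC.ι₁_emb, ι₁_toSpec, emb1, toPP_toSpec]
    congr 2
    ext a
    exact evC1_C f.reverse a

/-- closed immersion followed by open immersion -/
lemma emb0_fac : ∃ (Z : Scheme.{u}) (a : Spec (.of (QR f)) ⟶ Z) (b : Z ⟶ PP 4 k),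
    IsClosedImmersion a ∧ IsOpenImmersion b ∧ a ≫ b = emb0 f := by
  refine ⟨_, Spec.map (CommRingCat.ofHom (awayEval (gr 4 k) (MvPolynomial.X 0) (evC0 f)
    (by rw [evC0_X0]; exact isUnit_one))),
    Proj.awayι (gr 4 k) (MvPolynomial.X 0) (X_mem k 4 0) one_pos, ?_, inferInstance, rfl⟩
  exact IsClosedImmersion.spec_of_surjective _
    (awayEval_surjective (evC0 f) 0 (evC0_X0 f) _ (evC0_surjective f))

lemma emb1_fac (g : k[X]) : ∃ (Z : Scheme.{u}) (a : Spec (.of (QR g)) ⟶ Z) (b : Z ⟶ PP 4 k),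
    IsClosedImmersion a ∧ IsOpenImmersion b ∧ a ≫ b = emb1 g := by
  refine ⟨_, Spec.map (CommRingCat.ofHom (awayEval (gr 4 k) (MvPolynomial.X 3) (evC1 g)
    (by rw [evC1_X3]; exact isUnit_one))),
    Proj.awayι (gr 4 k) (MvPolynomial.X 3) (X_mem k 4 3) one_pos, ?_, inferInstance, rfl⟩
  exact IsClosedImmersion.spec_of_surjective _
    (awayEval_surjective (evC1 g) 3 (evC1_X3 g) _ (evC1_surjective g))

lemma emb0_injective : Function.Injective (emb0 f) := by
  obtain ⟨Z, a, b, ha, hb, hab⟩ := emb0_fac f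
  rw [← hab]
  intro x y hxy
  rw [Scheme.Hom.comp_apply, Scheme.Hom.comp_apply] at hxy
  exact a.isClosedEmbedding.injective (b.isOpenEmbedding.injective hxy)

lemma emb1_injective (g : k[X]) : Function.Injective (emb1 g) := by
  obtain ⟨Z, a, b, ha, hb, hab⟩ := emb1_fac g
  rw [← hab]
  intro x y hxy
  rw [Scheme.Hom.comp_apply, Scheme.Hom.comp_apply] at hxy
  exact a.isClosedEmbedding.injective (b.isOpenEmbedding.injective hxy)

lemma HC.emb_surjectiveOnStalks : SurjectiveOnStalks (HC.emb f hf) := by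
  rw [IsZariskiLocalAtSource.iff_of_openCover (P := @SurjectiveOnStalks) (HC.cov f 3 hf)]
  intro j
  match j with
  | false =>
    change SurjectiveOnStalks (HC.ι₀ f 3 hf ≫ HC.emb f hf)
    obtain ⟨Z, a, b, ha, hb, hab⟩ := emb0_fac f
    rw [HC.ι₀_emb, ← hab]
    infer_instance
  | true =>
    change SurjectiveOnStalks (HC.ι₁ f 3 hf ≫ HC.emb f hf)
    obtain ⟨Z, a, b, ha, hb, hab⟩ := emb1_fac f.reverse
    rw [HC.ι₁_emb, ← hab]
    infer_instance

lemma pb_range (x : Spec (.of k[X])) (hx : (X : k[X]) ∉ x.asIdeal) : ∃ z, pb k z = x := by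
  have h0 : c1 k x ∈ Proj.basicOpen (gr 1 k) (MvPolynomial.X 0) := by
    have e : c1 k = toPP (ev1 k).toRingHom 1 (isUnit_ev1 k) := rfl
    rw [e, toPP_mem_iff]
    have : (ev1 k).toRingHom (MvPolynomial.X 0) = X := by simp [ev1]
    rw [this]
    exact hx
  have h1 : c1 k x ∈ (c01 k).opensRange := by
    rw [opensRange_c01, Proj.basicOpen_mul]
    refine ⟨h0, ?_⟩
    rw [← opensRange_c1]
    exact ⟨x, rfl⟩
  obtain ⟨z, hz⟩ := h1
  refine ⟨z, ?_⟩
  apply (c1 k).isOpenEmbedding.injective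
  rw [← Scheme.Hom.comp_apply, pb_c1, hz]

lemma pa_range (x : Spec (.of k[X])) (hx : (X : k[X]) ∉ x.asIdeal) : ∃ z, pa k z = x := by
  have h0 : c0 k x ∈ Proj.basicOpen (gr 1 k) (MvPolynomial.X 1) := by
    have e : c0 k = toPP (ev0 k).toRingHom 0 (isUnit_ev0 k) := rfl
    rw [e, toPP_mem_iff]
    have : (ev0 k).toRingHom (MvPolynomial.X 1) = X := by simp [ev0]
    rw [this]
    exact hx
  have h1 : c0 k x ∈ (c01 k).opensRange := by
    rw [opensRange_c01, Proj.basicOpen_mul]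
    refine ⟨?_, h0⟩
    rw [← opensRange_c0]
    exact ⟨x, rfl⟩
  obtain ⟨z, hz⟩ := h1
  refine ⟨z, ?_⟩
  apply (c0 k).isOpenEmbedding.injective
  rw [← Scheme.Hom.comp_apply, pa_c0, hz]

lemma qb_range (y : Spec (.of (QR f.reverse)))
    (hy : AdjoinRoot.of (quadPoly f.reverse) X ∉ y.asIdeal) : ∃ z, qb f 3 hf z = y := by
  obtain ⟨t, ht⟩ := pb_range (nn f.reverse y) hy
  obtain ⟨s, hs0, hs1⟩ := Scheme.exists_preimage_of_isPullback (pull1 f 3 hf) t y ht
  exact ⟨s, hs1⟩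

lemma qa_range (y : Spec (.of (QR f)))
    (hy : AdjoinRoot.of (quadPoly f) X ∉ y.asIdeal) : ∃ z, qa f z = y := by
  obtain ⟨t, ht⟩ := pa_range (nn f y) hy
  obtain ⟨s, hs0, hs1⟩ := Scheme.exists_preimage_of_isPullback (pull0 f) t y ht
  exact ⟨s, hs1⟩

lemma HC.emb_injective : Function.Injective (HC.emb f hf) := by
  have key0 : ∀ x : HC f 3 hf, HC.emb f hf x ∈ Proj.basicOpen (gr 4 k) (MvPolynomial.X 0) →
      x ∈ Set.range (HC.ι₀ f 3 hf) := by
    intro x hx
    rcases glue2.cover (qa f) (qb f 3 hf) x with ⟨y, hy⟩ | ⟨y, hy⟩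
    · exact ⟨y, hy⟩
    · change HC.ι₁ f 3 hf y = x at hy
      rw [← hy, ← Scheme.Hom.comp_apply, HC.ι₁_emb, emb1, toPP_mem_iff, evC1_X0] at hx
      obtain ⟨z, hz⟩ := qb_range f hf y (fun h => hx (Ideal.pow_mem_of_mem _ h 3 (by norm_num)))
      refine ⟨qa f z, ?_⟩
      rw [← hy, ← hz]
      exact congrArg (fun t => Scheme.Hom.toLRSHom t |>.base z) (glue2.w (qa f) (qb f 3 hf))
  have key1 : ∀ x : HC f 3 hf, HC.emb f hf x ∈ Proj.basicOpen (gr 4 k) (MvPolynomial.X 3) →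
      x ∈ Set.range (HC.ι₁ f 3 hf) := by
    intro x hx
    rcases glue2.cover (qa f) (qb f 3 hf) x with ⟨y, hy⟩ | ⟨y, hy⟩
    · change HC.ι₀ f 3 hf y = x at hy
      rw [← hy, ← Scheme.Hom.comp_apply, HC.ι₀_emb, emb0, toPP_mem_iff, evC0_X3] at hx
      obtain ⟨z, hz⟩ := qa_range f y (fun h => hx (Ideal.pow_mem_of_mem _ h 3 (by norm_num)))
      refine ⟨qb f 3 hf z, ?_⟩
      rw [← hy, ← hz]
      exact congrArg (fun t => Scheme.Hom.toLRSHom t |>.base z) (glue2.w (qa f) (qb f 3 hf)).symm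
    · exact ⟨y, hy⟩
  intro x y hxy
  rcases glue2.cover (qa f) (qb f 3 hf) x with ⟨x', hx'⟩ | ⟨x', hx'⟩
  · change HC.ι₀ f 3 hf x' = x at hx'
    have h1 : HC.emb f hf x ∈ Proj.basicOpen (gr 4 k) (MvPolynomial.X 0) := by
      rw [← hx', ← Scheme.Hom.comp_apply, HC.ι₀_emb, emb0, toPP_mem_iff, evC0_X0,
        PrimeSpectrum.basicOpen_one]
      trivial
    obtain ⟨y', hy'⟩ := key0 y (hxy ▸ h1)
    rw [← hx', ← hy', ← Scheme.Hom.comp_apply, ← Scheme.Hom.comp_apply, HC.ι₀_emb] at hxy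
    rw [← hx', ← hy', emb0_injective f hxy]
  · change HC.ι₁ f 3 hf x' = x at hx'
    have h1 : HC.emb f hf x ∈ Proj.basicOpen (gr 4 k) (MvPolynomial.X 3) := by
      rw [← hx', ← Scheme.Hom.comp_apply, HC.ι₁_emb, emb1, toPP_mem_iff, evC1_X3,
        PrimeSpectrum.basicOpen_one]
      trivial
    obtain ⟨y', hy'⟩ := key1 y (hxy ▸ h1)
    rw [← hx', ← hy', ← Scheme.Hom.comp_apply, ← Scheme.Hom.comp_apply, HC.ι₁_emb] at hxy
    rw [← hx', ← hy', emb1_injective _ hxy]

instance PP.isSeparated (n : ℕ) : IsSeparated (PP.toSpec n k) := inferInstance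

lemma HC.emb_isClosedImmersion : IsClosedImmersion (HC.emb f hf) := by
  have h1 : IsProper (HC.emb f hf) := by
    have : IsProper (HC.emb f hf ≫ PP.toSpec 4 k) := by
      rw [HC.emb_toSpec]; infer_instance
    exact IsProper.of_comp (HC.emb f hf) (PP.toSpec 4 k)
  have h2 := HC.emb_surjectiveOnStalks f hf
  exact (IsClosedImmersion.iff_isProper_and_mono ..).mpr
    ⟨h1, SurjectiveOnStalks.mono_of_injective (HC.emb_injective f hf)⟩

end Emb

end Pool.Agent.helper52
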