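import Mathlib
import Pool.Agent.helper52.Embed

set_option autoImplicit false
set_option linter.unusedSectionVars false

open AlgebraicGeometry CategoryTheory Limits Polynomial

universe u

namespace Pool.Agent.helper52

section Final

variable {c : ℚ} (hc : c ≠ 0)

lemma crv_isHyperelliptic : IsHyperelliptic (crvTo c hc) := by
  have hs : (C c * hh).Separable := sep_const hc hh_separable
  have hs' : (C c * hh).reverse.Separable := by
    rw [reverse_const]; exact sep_const hc hr_separable
  have hd' : (C c * hh).reverse.natDegree ≠ 0 := by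
    rw [reverse_const, natDegree_C_mul hc, hr_natDegree]; norm_num
  have h2 : (2 : ℚ) ≠ 0 := by norm_num
  have hgi : GeometricallyIntegral (HC.toSpec (C c * hh) 3 (natDegree_const hc)) :=
    HC.geometricallyIntegral (C c * hh) 3 (natDegree_const hc) hs hs' (by norm_num) hd'
  have hint : AlgebraicGeometry.IsIntegral (HC (C c * hh) 3 (natDegree_const hc)) :=
    GeometricallyIntegral.isIntegral_of_subsingleton
      (HC.toSpec (C c * hh) 3 (natDegree_const hc))
  have hfin : IsFinite (HC.π (C c * hh) 3 (natDegree_const hc)) := inferInstance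
  have hflat : Flat (HC.π (C c * hh) 3 (natDegree_const hc)) := inferInstance
  exact
    { smooth := HC.smooth (C c * hh) 3 (natDegree_const hc) h2 hs hs'
      projective := ⟨4, HC.emb (C c * hh) (natDegree_const hc),
        HC.emb_isClosedImmersion (C c * hh) (natDegree_const hc),
        HC.emb_toSpec (C c * hh) (natDegree_const hc)⟩
      geometricallyIntegral := hgi
      two_le_genus := ⟨hint, HC.genus_ge (C c * hh) 3 (natDegree_const hc) h2 hs hs' le_rfl⟩
      doubleCover := ⟨HC.π (C c * hh) 3 (natDegree_const hc), rfl, hfin, hflat,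
        HC.π_finrank (C c * hh) 3 (natDegree_const hc)⟩ }

/-- the product of two hyperelliptic curves is nonempty -/
lemma nonempty_product {k : Type u} [Field k] {C D : Scheme.{u}} (p : C ⟶ Spec (.of k))
    (q : D ⟶ Spec (.of k)) (hp : GeometricallyIntegral p) (hq : GeometricallyIntegral q) :
    Nonempty (pullback p q : Scheme.{u}) := by
  have h1 : Surjective p := inferInstance
  have h2 : Surjective q := inferInstance
  have h3 : Surjective (pullback.fst p q) := inferInstance
  obtain ⟨y⟩ : Nonempty (Spec (.of k)) := inferInstance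
  obtain ⟨x, hx⟩ := h1.surj y
  obtain ⟨z, hz⟩ := h3.surj x
  exact ⟨z⟩

/-- The curves `y² = -h(x)` and `z² = 3 h(t)` give a product without closed points of degree two. -/
theorem main : ∃ (C D : Scheme.{0}) (p : C ⟶ Spec (.of ℚ)) (q : D ⟶ Spec (.of ℚ)),
    IsHyperelliptic p ∧ IsHyperelliptic q ∧
    pointsOfDegree (pullback.fst p q ≫ p) 2 = ∅ ∧
    2 ∉ densityDegreeSet (pullback.fst p q ≫ p) := by
  have hp := crv_isHyperelliptic (c := -1) (by norm_num)
  have hq := crv_isHyperelliptic (c := 3) (by norm_num)
  refine ⟨_, _, crvTo (-1) (by norm_num), crvTo 3 (by norm_num), hp, hq,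
    crv_pointsOfDegree_two, ?_⟩
  rintro ⟨-, h⟩
  rw [crv_pointsOfDegree_two] at h
  have := nonempty_product _ _ hp.geometricallyIntegral hq.geometricallyIntegral
  exact Set.not_nonempty_empty h.nonempty

end Final

end Pool.Agent.helper52
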